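import Pool.Agent.Helper89K9.GV.Lists

/-!
Asymptotic form of the bounds for the equivocation.
-/

set_option autoImplicit false

namespace Pool.Agent.Helper89K9.GV

open Finset Filter
open Pool.Agent.Results.MP_0430e4_lc.ConstantWeightCriterion

/-- the largest equivocation of a code of length `n` with minimum distance at least `δ n` -/
noncomputable def maxEqv (δ : ℝ) (n : ℕ) : ℝ :=
  sSup {r : ℝ | ∃ C : Finset (Fin n → Bool), C.Nonempty ∧ IsCode ⌈δ * n⌉₊ C ∧ r = eqv δ C}

/-- its rate -/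
noncomputable def E (δ : ℝ) : ℝ := limsup (fun n : ℕ => maxEqv δ n / n) atTop

noncomputable def Elow (δ : ℝ) : ℝ := liminf (fun n : ℕ => maxEqv δ n / n) atTop

/-- `φ(g) = g + ln ((1 - δ) / δ) √(g / (2 ln 2))` -/
noncomputable def phi (δ g : ℝ) : ℝ := g + Real.log ((1 - δ) / δ) * √(g / (2 * Real.log 2))

section

variable {n : ℕ}

lemma eqv_nonneg {δ : ℝ} (h0 : 0 < δ) (h1 : δ < 1) (C : Finset (Fin n → Bool)) : 0 ≤ eqv δ C := by
  unfold eqv
  apply div_nonneg _ (Nat.cast_nonneg _)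
  apply Finset.sum_nonneg
  intro x hx
  unfold pe ex
  apply Finset.sum_nonneg
  intro y _
  apply mul_nonneg (kern_nonneg h0.le h1.le _ _)
  apply Real.logb_nonneg (by norm_num)
  rw [one_le_div (kern_pos h0 h1 _ _)]
  unfold mix
  exact Finset.single_le_sum (f := fun x => kern δ x y)
    (fun z _ => kern_nonneg h0.le h1.le z y) hx

lemma eqv_le_log {δ : ℝ} (h0 : 0 < δ) (h1 : δ < 1) {C : Finset (Fin n → Bool)}
    (hC : C.Nonempty) : eqv δ C ≤ Real.logb 2 C.card := by
  have hlog : 0 < Real.log 2 := Real.log_pos (by norm_num)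
  have hc : (0 : ℝ) < C.card := by exact_mod_cast hC.card_pos
  unfold eqv
  rw [div_le_iff₀ hc]
  have h2 : ∀ x ∈ C, pe δ C x ≤ Real.logb 2 C.card := by
    intro x _
    have h3 : ∀ y : Fin n → Bool, kern δ x y * Real.logb 2 (mix δ C y / kern δ x y) ≤
        kern δ x y * Real.logb 2 C.card + (mix δ C y / C.card - kern δ x y) / Real.log 2 := by
      intro y
      have p1 := mix_pos h0 h1 hC y
      have p2 := kern_pos h0 h1 x y
      have h4 := Real.log_le_sub_one_of_pos (x := mix δ C y / kern δ x y / C.card)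
        (div_pos (div_pos p1 p2) hc)
      rw [Real.log_div (div_pos p1 p2).ne' hc.ne'] at h4
      have h5 := mul_le_mul_of_nonneg_left h4 p2.le
      have e : kern δ x y * (mix δ C y / kern δ x y / C.card - 1) =
          mix δ C y / C.card - kern δ x y := by
        field_simp
      rw [e] at h5
      unfold Real.logb
      rw [← sub_nonneg]
      have : kern δ x y * (Real.log C.card / Real.log 2) +
          (mix δ C y / C.card - kern δ x y) / Real.log 2 -
          kern δ x y * (Real.log (mix δ C y / kern δ x y) / Real.log 2) =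
          ((mix δ C y / C.card - kern δ x y) -
          kern δ x y * (Real.log (mix δ C y / kern δ x y) - Real.log C.card)) / Real.log 2 := by
        field_simp
        ring
      rw [this]
      apply div_nonneg _ hlog.le
      linarith
    unfold pe ex
    refine (Finset.sum_le_sum fun y _ => h3 y).trans ?_
    rw [Finset.sum_add_distrib, ← Finset.sum_mul, sum_kern, one_mul, ← Finset.sum_div,
      Finset.sum_sub_distrib, ← Finset.sum_div, sum_mix, sum_kern, div_self hc.ne']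
    simp
  calc ∑ x ∈ C, pe δ C x ≤ ∑ _x ∈ C, Real.logb 2 C.card := Finset.sum_le_sum h2
    _ = Real.logb 2 C.card * C.card := by rw [Finset.sum_const, nsmul_eq_mul, mul_comm]

lemma log_card_le (C : Finset (Fin n → Bool)) : Real.logb 2 (C.card : ℝ) ≤ n := by
  rcases Nat.eq_zero_or_pos C.card with h | h
  · rw [h]; simp
  have h2 : (C.card : ℝ) ≤ 2 ^ n := by
    have : C.card ≤ 2 ^ n := by
      refine (Finset.card_le_univ C).trans ?_
      simp
    exact_mod_cast this
  calc Real.logb 2 (C.card : ℝ) ≤ Real.logb 2 (2 ^ n) :=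
        Real.logb_le_logb_of_le (by norm_num) (by exact_mod_cast h) h2
    _ = n := by rw [Real.logb_pow]; simp

lemma maxEqv_bdd {δ : ℝ} (h0 : 0 < δ) (h1 : δ < 1) (n : ℕ) :
    BddAbove {r : ℝ | ∃ C : Finset (Fin n → Bool), C.Nonempty ∧ IsCode ⌈δ * n⌉₊ C ∧
      r = eqv δ C} := by
  refine ⟨n, ?_⟩
  rintro r ⟨C, hC, -, rfl⟩
  exact (eqv_le_log h0 h1 hC).trans (log_card_le C)

lemma le_maxEqv {δ : ℝ} (h0 : 0 < δ) (h1 : δ < 1) {C : Finset (Fin n → Bool)}
    (hC : C.Nonempty) (hcode : IsCode ⌈δ * n⌉₊ C) : eqv δ C ≤ maxEqv δ n :=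
  le_csSup (maxEqv_bdd h0 h1 n) ⟨C, hC, hcode, rfl⟩

lemma single_code (n d : ℕ) : IsCode d ({fun _ => false} : Finset (Fin n → Bool)) := by
  intro x hx y hy hxy
  rw [Finset.mem_singleton] at hx hy
  exact absurd (hx.trans hy.symm) hxy

lemma maxEqv_le {δ : ℝ} {n : ℕ} {b : ℝ}
    (h : ∀ C : Finset (Fin n → Bool), C.Nonempty → IsCode ⌈δ * n⌉₊ C → eqv δ C ≤ b) :
    maxEqv δ n ≤ b := by
  apply csSup_le
  · exact ⟨_, {fun _ => false}, Finset.singleton_nonempty _, single_code _ _, rfl⟩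
  · rintro r ⟨C, hC, hcode, rfl⟩
    exact h C hC hcode

lemma maxEqv_mem {δ : ℝ} (h0 : 0 < δ) (h1 : δ < 1) (n : ℕ) :
    0 ≤ maxEqv δ n / n ∧ maxEqv δ n / n ≤ 1 := by
  have h2 : 0 ≤ maxEqv δ n :=
    (eqv_nonneg h0 h1 _).trans
      (le_maxEqv h0 h1 (Finset.singleton_nonempty _) (single_code n _))
  refine ⟨div_nonneg h2 (Nat.cast_nonneg _), ?_⟩
  rcases Nat.eq_zero_or_pos n with h | h
  · subst h; simp
  have hn : (0 : ℝ) < n := by exact_mod_cast h
  rw [div_le_one hn]
  exact maxEqv_le fun C hC _ => (eqv_le_log h0 h1 hC).trans (log_card_le C)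

lemma excess_le_maxEqv {δ : ℝ} (h0 : 0 < δ) (h1 : δ < 1) (n : ℕ) :
    excess δ n ≤ maxEqv δ n := by
  obtain ⟨C, hcode, hcard⟩ := exists_A n ⌈δ * n⌉₊
  have hC : C.Nonempty := by
    rw [← Finset.card_pos, hcard]
    exact A_pos _ _
  have h2 := eqv_ge h0 h1 hC
  rw [hcard] at h2
  unfold excess
  exact h2.trans (le_maxEqv h0 h1 hC hcode)

lemma maxEqv_le_bnd {δ : ℝ} (h0 : 0 < δ) (h1 : δ < 1 / 2) (hn : 1 ≤ n) :
    maxEqv δ n ≤ bnd δ n + 4 :=
  maxEqv_le fun _ hC hcode => eqv_le h0 h1 hn hC hcode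

end

section Limits

variable {f g : ℕ → ℝ}

/-- transfer of upper bounds to the upper limits -/
lemma limsup_up (hf : ∀ n, 0 ≤ f n ∧ f n ≤ 1) (hg : ∀ n, 0 ≤ g n ∧ g n ≤ 1)
    (φ : ℝ → ℝ) (hφ : Continuous φ) (hmono : Monotone φ) (e : ℕ → ℝ) (he : Tendsto e atTop (nhds 0))
    (h : ∀ᶠ n in atTop, f n ≤ φ (g n) + e n) : limsup f atTop ≤ φ (limsup g atTop) := by
  apply le_of_forall_gt
  intro c hc
  obtain ⟨t, ht1, ht2⟩ : ∃ t, limsup g atTop < t ∧ φ t < c := by
    have h1 : ∀ᶠ t in nhds (limsup g atTop), φ t < c :=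
      (hφ.tendsto _).eventually (gt_mem_nhds hc)
    obtain ⟨ε, hε, hball⟩ := Metric.eventually_nhds_iff.1 h1
    refine ⟨limsup g atTop + ε / 2, by linarith, hball ?_⟩
    rw [Real.dist_eq, abs_lt]
    constructor <;> linarith
  obtain ⟨c', hc'1, hc'2⟩ := exists_between ht2
  have h2 : ∀ᶠ n in atTop, g n < t := eventually_lt_of_limsup_lt ht1 (bdd_le hg)
  have h3 : ∀ᶠ n in atTop, e n < c' - φ t := he.eventually (gt_mem_nhds (by linarith))
  have h4 : ∀ᶠ n in atTop, f n ≤ c' := by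
    filter_upwards [h2, h3, h] with n a1 a2 a3
    have := hmono a1.le
    linarith
  exact (limsup_le_of_le (bdd_ge hf).isCoboundedUnder_flip h4).trans_lt hc'2

/-- transfer of upper bounds to the lower limits -/
lemma liminf_up (hf : ∀ n, 0 ≤ f n ∧ f n ≤ 1) (hg : ∀ n, 0 ≤ g n ∧ g n ≤ 1)
    (φ : ℝ → ℝ) (hφ : Continuous φ) (hmono : Monotone φ) (e : ℕ → ℝ) (he : Tendsto e atTop (nhds 0))
    (h : ∀ᶠ n in atTop, f n ≤ φ (g n) + e n) : liminf f atTop ≤ φ (liminf g atTop) := by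
  apply le_of_forall_gt
  intro c hc
  obtain ⟨t, ht1, ht2⟩ : ∃ t, liminf g atTop < t ∧ φ t < c := by
    have h1 : ∀ᶠ t in nhds (liminf g atTop), φ t < c :=
      (hφ.tendsto _).eventually (gt_mem_nhds hc)
    obtain ⟨ε, hε, hball⟩ := Metric.eventually_nhds_iff.1 h1
    refine ⟨liminf g atTop + ε / 2, by linarith, hball ?_⟩
    rw [Real.dist_eq, abs_lt]
    constructor <;> linarith
  obtain ⟨c', hc'1, hc'2⟩ := exists_between ht2
  have h2 : ∃ᶠ n in atTop, g n < t :=
    frequently_lt_of_liminf_lt (bdd_le hg).isCoboundedUnder_flip ht1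
  have h3 : ∀ᶠ n in atTop, e n < c' - φ t := he.eventually (gt_mem_nhds (by linarith))
  have h4 : ∃ᶠ n in atTop, f n ≤ c' := by
    refine (h2.and_eventually (h3.and h)).mono ?_
    rintro n ⟨a1, a2, a3⟩
    have := hmono a1.le
    linarith
  exact (liminf_le_of_frequently_le h4 (bdd_ge hf)).trans_lt hc'2

end Limits

lemma log_ratio_pos {δ : ℝ} (h0 : 0 < δ) (h1 : δ < 1 / 2) : 0 < Real.log ((1 - δ) / δ) := by
  apply Real.log_pos
  rw [lt_div_iff₀ h0]
  linarith

lemma phi_cont (δ : ℝ) : Continuous (phi δ) := by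
  unfold phi
  exact continuous_id.add (continuous_const.mul
    (Real.continuous_sqrt.comp (continuous_id.div_const _)))

lemma phi_mono {δ : ℝ} (h0 : 0 < δ) (h1 : δ < 1 / 2) : StrictMono (phi δ) := by
  have hlog : 0 < Real.log 2 := Real.log_pos (by norm_num)
  intro s t hst
  unfold phi
  have h2 : √(s / (2 * Real.log 2)) ≤ √(t / (2 * Real.log 2)) := by
    apply Real.sqrt_le_sqrt
    rw [div_le_div_iff_of_pos_right (by linarith)]
    exact hst.le
  have := mul_le_mul_of_nonneg_left h2 (log_ratio_pos h0 h1).le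
  linarith

lemma phi_zero (δ : ℝ) : phi δ 0 = 0 := by
  unfold phi
  simp

/-- the error term -/
noncomputable def err (δ : ℝ) (n : ℕ) : ℝ :=
  Real.log ((1 - δ) / δ) * √((1 / n) / (2 * Real.log 2)) + 4 * (1 / n)

lemma err_tendsto (δ : ℝ) : Tendsto (err δ) atTop (nhds 0) := by
  have h : Continuous fun s : ℝ => Real.log ((1 - δ) / δ) * √(s / (2 * Real.log 2)) + 4 * s := by
    exact (continuous_const.mul (Real.continuous_sqrt.comp
      (continuous_id.div_const _))).add (continuous_const.mul continuous_id)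
  have h2 := (h.tendsto 0).comp tendsto_one_div
  simp only [mul_zero, zero_div, Real.sqrt_zero, add_zero] at h2
  exact h2

lemma sqrt_add_le' {a b : ℝ} (ha : 0 ≤ a) (hb : 0 ≤ b) : √(a + b) ≤ √a + √b := by
  rw [Real.sqrt_le_iff]
  refine ⟨by positivity, ?_⟩
  have h1 := Real.sq_sqrt ha
  have h2 := Real.sq_sqrt hb
  have h3 : 0 ≤ √a * √b := by positivity
  nlinarith

lemma bnd_le {δ : ℝ} (h0 : 0 < δ) (h1 : δ < 1 / 2) {n : ℕ} (hn : 1 ≤ n) :
    (bnd δ n + 4) / n ≤ phi δ (excess δ n / n) + err δ n := by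
  have hlog : 0 < Real.log 2 := Real.log_pos (by norm_num)
  have hn0 : (0 : ℝ) < n := by exact_mod_cast hn
  have hL := log_ratio_pos h0 h1
  have hG := excess_nonneg h0 h1.le hn
  unfold bnd phi err
  have e1 : √(n * (excess δ n + 1) / (2 * Real.log 2)) / n =
      √((excess δ n / n) / (2 * Real.log 2) + (1 / n) / (2 * Real.log 2)) := by
    rw [eq_comm, Real.sqrt_eq_iff_mul_self_eq (by positivity) (by positivity),
      div_mul_div_comm, Real.mul_self_sqrt (by positivity)]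
    field_simp
  have h2 : √(n * (excess δ n + 1) / (2 * Real.log 2)) / n ≤
      √((excess δ n / n) / (2 * Real.log 2)) + √((1 / n) / (2 * Real.log 2)) := by
    rw [e1]
    exact sqrt_add_le' (by positivity) (by positivity)
  have h3 := mul_le_mul_of_nonneg_left h2 hL.le
  have e2 : (excess δ n + Real.log ((1 - δ) / δ) * √(n * (excess δ n + 1) / (2 * Real.log 2)) + 4) / n
      = excess δ n / n + Real.log ((1 - δ) / δ) *
        (√(n * (excess δ n + 1) / (2 * Real.log 2)) / n) + 4 * (1 / n) := by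
    field_simp
  rw [e2]
  linarith

lemma excess_div {δ : ℝ} {n : ℕ} (hn : 1 ≤ n) :
    excess δ n / n = Real.logb 2 (A n ⌈δ * n⌉₊) / n - (1 - H δ) := by
  have hn0 : (n : ℝ) ≠ 0 := by
    have : n ≠ 0 := by omega
    exact_mod_cast this
  unfold excess
  field_simp

/-- **The rate of the equivocation and the excess over the Gilbert–Varshamov bound.** -/
theorem two_sided {δ : ℝ} (h0 : 0 < δ) (h1 : δ < 1 / 2) :
    (R δ - (1 - H δ) ≤ E δ ∧ E δ ≤ phi δ (R δ - (1 - H δ))) ∧
    (Rlow δ - (1 - H δ) ≤ Elow δ ∧ Elow δ ≤ phi δ (Rlow δ - (1 - H δ))) := by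
  have hev1 : ∀ᶠ n : ℕ in atTop, (Real.logb 2 (A n ⌈δ * n⌉₊) / n - (1 - H δ)) - 1 / (n : ℝ) ≤
      maxEqv δ n / n := by
    filter_upwards [eventually_ge_atTop 1] with n hn
    have hn0 : (0 : ℝ) < n := by exact_mod_cast hn
    have h2 := excess_le_maxEqv h0 (by linarith : δ < 1) n
    have h3 : excess δ n / n ≤ maxEqv δ n / n := by
      rw [div_le_div_iff_of_pos_right hn0]
      exact h2
    rw [excess_div hn] at h3
    have : 0 < 1 / (n : ℝ) := by positivity
    linarith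
  have hev2 : ∀ᶠ n : ℕ in atTop, maxEqv δ n / n ≤
      (fun s => phi δ (s - (1 - H δ))) (Real.logb 2 (A n ⌈δ * n⌉₊) / n) + err δ n := by
    filter_upwards [eventually_ge_atTop 1] with n hn
    have hn0 : (0 : ℝ) < n := by exact_mod_cast hn
    have h2 := maxEqv_le_bnd h0 h1 hn
    have h3 : maxEqv δ n / n ≤ (bnd δ n + 4) / n := by
      rw [div_le_div_iff_of_pos_right hn0]
      exact h2
    have h4 := bnd_le h0 h1 hn
    rw [excess_div hn] at h4
    exact h3.trans h4
  have hc1 : Continuous fun s : ℝ => s - (1 - H δ) := by fun_prop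
  have hm1 : Monotone fun s : ℝ => s - (1 - H δ) := by
    intro s t hst
    simp only
    linarith
  have hc2 : Continuous fun s : ℝ => phi δ (s - (1 - H δ)) := (phi_cont δ).comp hc1
  have hm2 : Monotone fun s : ℝ => phi δ (s - (1 - H δ)) := (phi_mono h0 h1).monotone.comp hm1
  have hmem := maxEqv_mem h0 (by linarith : δ < 1)
  exact ⟨⟨limsup_transfer (rateA δ) hmem _ hc1 hm1 _ tendsto_one_div hev1,
    limsup_up hmem (rateA δ) _ hc2 hm2 _ (err_tendsto δ) hev2⟩,
    ⟨liminf_transfer (rateA δ) hmem _ hc1 hm1 _ tendsto_one_div hev1,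
    liminf_up hmem (rateA δ) _ hc2 hm2 _ (err_tendsto δ) hev2⟩⟩

/-- the bound of Gilbert and Varshamov -/
lemma gv {δ : ℝ} (h0 : 0 < δ) (h1 : δ < 1 / 2) : 1 - H δ ≤ Rlow δ ∧ Rlow δ ≤ R δ := by
  constructor
  · apply le_liminf_of_le (bdd_le (rateA δ)).isCoboundedUnder_flip
    filter_upwards [eventually_ge_atTop 1] with n hn
    have hn0 : (0 : ℝ) < n := by exact_mod_cast hn
    have h2 := excess_nonneg h0 h1.le hn
    have h3 : 0 ≤ excess δ n / n := by positivity
    rw [excess_div hn] at h3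
    linarith
  · exact liminf_le_limsup (bdd_le (rateA δ)) (bdd_ge (rateA δ))

/-- `B(n) / n` is asymptotically at most `φ(R(δ) - (1 - H(δ)))` -/
lemma bnd_ev {δ : ℝ} (h0 : 0 < δ) (h1 : δ < 1 / 2) {ε : ℝ} (hε : 0 < ε) :
    ∀ᶠ n : ℕ in atTop, bnd δ n + 4 ≤ (phi δ (R δ - (1 - H δ)) + ε) * n := by
  set g : ℝ := R δ - (1 - H δ) with hg
  have h2 : ∀ᶠ s in nhds g, phi δ s < phi δ g + ε / 2 :=
    ((phi_cont δ).tendsto g).eventually (gt_mem_nhds (by linarith))
  obtain ⟨η, hη, hball⟩ := Metric.eventually_nhds_iff.1 h2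
  have h3 : ∀ᶠ n : ℕ in atTop, Real.logb 2 (A n ⌈δ * n⌉₊) / n < R δ + η / 2 := by
    apply eventually_lt_of_limsup_lt _ (bdd_le (rateA δ))
    change R δ < _
    linarith
  have h4 : ∀ᶠ n : ℕ in atTop, err δ n < ε / 2 :=
    (err_tendsto δ).eventually (gt_mem_nhds (by linarith))
  filter_upwards [h3, h4, eventually_ge_atTop 1] with n a1 a2 hn
  have hn0 : (0 : ℝ) < n := by exact_mod_cast hn
  have h5 := bnd_le h0 h1 hn
  have h6 : phi δ (excess δ n / n) < phi δ g + ε / 2 := by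
    have h7 : excess δ n / n ≤ g + η / 2 := by
      rw [excess_div hn, hg]
      linarith
    have h8 : phi δ (g + η / 2) < phi δ g + ε / 2 := by
      apply hball
      rw [Real.dist_eq, abs_lt]
      constructor <;> linarith
    exact ((phi_mono h0 h1).monotone h7).trans_lt h8
  have h8 : (bnd δ n + 4) / n ≤ phi δ g + ε := by linarith
  rwa [div_le_iff₀ hn0] at h8

/-- if the bound of Gilbert and Varshamov is sharp, then `B(n) / n` tends to zero -/
lemma bnd_tendsto {δ : ℝ} (h0 : 0 < δ) (h1 : δ < 1 / 2) (hR : R δ = 1 - H δ) {ε : ℝ}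
    (hε : 0 < ε) : ∀ᶠ n : ℕ in atTop, bnd δ n + 4 ≤ ε * n := by
  have h2 := bnd_ev h0 h1 hε
  rw [hR, sub_self, phi_zero, zero_add] at h2
  exact h2

end Pool.Agent.Helper89K9.GV
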