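import Pool.Agent.Helper89K9.GV.Noise

/-!
The equivocation of a code over the binary symmetric channel.
-/

set_option autoImplicit false

namespace Pool.Agent.Helper89K9.GV

open Finset Filter
open Pool.Agent.Results.MP_0430e4_lc.ConstantWeightCriterion

variable {n : ℕ}

/-- `|C|` times the distribution of the received word -/
noncomputable def mix (δ : ℝ) (C : Finset (Fin n → Bool)) (y : Fin n → Bool) : ℝ :=
  ∑ x ∈ C, kern δ x y

lemma mix_pos {δ : ℝ} (h0 : 0 < δ) (h1 : δ < 1) {C : Finset (Fin n → Bool)} (hC : C.Nonempty)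
    (y : Fin n → Bool) : 0 < mix δ C y :=
  Finset.sum_pos (fun _ _ => kern_pos h0 h1 _ _) hC

lemma sum_mix (δ : ℝ) (C : Finset (Fin n → Bool)) : ∑ y, mix δ C y = C.card := by
  unfold mix
  rw [Finset.sum_comm]
  simp [sum_kern]

lemma sum_ex (δ : ℝ) (C : Finset (Fin n → Bool)) (g : (Fin n → Bool) → ℝ) :
    ∑ x ∈ C, ex δ x g = ∑ y, mix δ C y * g y := by
  unfold mix ex
  rw [Finset.sum_comm]
  exact Finset.sum_congr rfl fun y _ => by rw [Finset.sum_mul]

/-- minus the logarithm of the probability of the received word -/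
noncomputable def fC (δ : ℝ) (C : Finset (Fin n → Bool)) (y : Fin n → Bool) : ℝ :=
  -Real.log (mix δ C y / C.card)

lemma kern_update {δ : ℝ} (h0 : 0 < δ) (h1 : δ ≤ 1 / 2) (x u : Fin n → Bool) (i : Fin n)
    (b : Bool) : kern δ x (Function.update u i b) ≤ (1 - δ) / δ * kern δ x u := by
  have hr : 0 ≤ (1 - δ) / δ := div_nonneg (by linarith) h0.le
  have e : ∏ j : Fin n, (if j = i then (1 - δ) / δ else 1) = (1 - δ) / δ := by
    rw [Finset.prod_ite_eq' univ i]
    simp
  unfold kern
  rw [← e, ← Finset.prod_mul_distrib]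
  apply Finset.prod_le_prod
  · intro j _
    exact nz_nonneg h0.le (by linarith) _ _
  · intro j _
    by_cases hj : j = i
    · subst hj
      rw [Function.update_self, if_pos rfl]
      have a1 : nz δ (x j) b ≤ 1 - δ := by unfold nz; split_ifs <;> linarith
      have a2 : δ ≤ nz δ (x j) (u j) := by unfold nz; split_ifs <;> linarith
      calc nz δ (x j) b ≤ 1 - δ := a1
        _ = (1 - δ) / δ * δ := by field_simp
        _ ≤ (1 - δ) / δ * nz δ (x j) (u j) := mul_le_mul_of_nonneg_left a2 hr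
    · rw [Function.update_of_ne hj, if_neg hj, one_mul]

lemma mix_update {δ : ℝ} (h0 : 0 < δ) (h1 : δ ≤ 1 / 2) (C : Finset (Fin n → Bool))
    (u : Fin n → Bool) (i : Fin n) (b : Bool) :
    mix δ C (Function.update u i b) ≤ (1 - δ) / δ * mix δ C u := by
  unfold mix
  rw [Finset.mul_sum]
  exact Finset.sum_le_sum fun x _ => kern_update h0 h1 x u i b

lemma lip_fC {δ : ℝ} (h0 : 0 < δ) (h1 : δ ≤ 1 / 2) {C : Finset (Fin n → Bool)}
    (hC : C.Nonempty) : Lip (Real.log ((1 - δ) / δ)) (fC δ C) := by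
  intro u i b
  have hc : (0 : ℝ) < C.card := by exact_mod_cast hC.card_pos
  have hr : 0 < (1 - δ) / δ := div_pos (by linarith) h0
  have p1 := mix_pos h0 (by linarith : δ < 1) hC u
  have p2 := mix_pos h0 (by linarith : δ < 1) hC (Function.update u i b)
  have h2 := mix_update h0 h1 C u i b
  have h3 := mix_update h0 h1 C (Function.update u i b) i (u i)
  rw [Function.update_idem, Function.update_eq_self] at h3
  have l2 := Real.log_le_log p2 h2
  have l3 := Real.log_le_log p1 h3
  rw [Real.log_mul hr.ne' p1.ne'] at l2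
  rw [Real.log_mul hr.ne' p2.ne'] at l3
  unfold fC
  rw [Real.log_div p1.ne' hc.ne', Real.log_div p2.ne' hc.ne', abs_le]
  constructor <;> linarith

lemma sum_exp_fC {δ : ℝ} (h0 : 0 < δ) (h1 : δ < 1) {C : Finset (Fin n → Bool)}
    (hC : C.Nonempty) : ∑ u, Real.exp (-(fC δ C u)) = 1 := by
  have hc : (0 : ℝ) < C.card := by exact_mod_cast hC.card_pos
  have e : ∀ u : Fin n → Bool, Real.exp (-(fC δ C u)) = mix δ C u / C.card := by
    intro u
    unfold fC
    rw [neg_neg, Real.exp_log (div_pos (mix_pos h0 h1 hC u) hc)]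
  simp_rw [e]
  rw [← Finset.sum_div, sum_mix, div_self hc.ne']

/-- the entropy of the noise -/
lemma ent_kern {δ : ℝ} (h0 : 0 < δ) (h1 : δ < 1) : ∀ (n : ℕ) (x : Fin n → Bool),
    ex δ x (fun y => Real.log (kern δ x y)) = -(n * Real.binEntropy δ) := by
  intro n
  induction n with
  | zero =>
    intro x
    unfold ex kern
    simp
  | succ n ih =>
    intro x
    have hb : ∀ b : Bool, ∑ u : Fin n → Bool, kern δ x (Fin.cons b u) *
        Real.log (kern δ x (Fin.cons b u)) = nz δ (x 0) b * Real.log (nz δ (x 0) b) +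
          nz δ (x 0) b * -(n * Real.binEntropy δ) := by
      intro b
      rw [← ih (Fin.tail x)]
      unfold ex
      have e : ∀ u : Fin n → Bool, kern δ x (Fin.cons b u) *
        Real.log (kern δ x (Fin.cons b u)) =
          nz δ (x 0) b * Real.log (nz δ (x 0) b) * kern δ (Fin.tail x) u +
          nz δ (x 0) b * (kern δ (Fin.tail x) u * Real.log (kern δ (Fin.tail x) u)) := by
        intro u
        rw [kern_cons, Real.log_mul (nz_pos h0 h1 _ _).ne' (kern_pos h0 h1 _ _).ne']
        ring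
      simp_rw [e]
      rw [Finset.sum_add_distrib, ← Finset.mul_sum, ← Finset.mul_sum, sum_kern, mul_one]
    unfold ex
    rw [sum_cons, Fintype.sum_bool, hb, hb]
    have e2 : nz δ (x 0) true * Real.log (nz δ (x 0) true) +
        nz δ (x 0) false * Real.log (nz δ (x 0) false) = -Real.binEntropy δ := by
      unfold Real.binEntropy
      rw [Real.log_inv, Real.log_inv]
      cases x 0 <;> (simp [nz]; try ring)
    have e3 : nz δ (x 0) true + nz δ (x 0) false = 1 := by
      have := sum_nz δ (x 0); rwa [Fintype.sum_bool] at this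
    push_cast
    calc nz δ (x 0) true * Real.log (nz δ (x 0) true) +
          nz δ (x 0) true * -(n * Real.binEntropy δ) +
        (nz δ (x 0) false * Real.log (nz δ (x 0) false) +
          nz δ (x 0) false * -(n * Real.binEntropy δ))
        = (nz δ (x 0) true * Real.log (nz δ (x 0) true) +
        nz δ (x 0) false * Real.log (nz δ (x 0) false)) +
        (nz δ (x 0) true + nz δ (x 0) false) * -(n * Real.binEntropy δ) := by ring
      _ = _ := by rw [e2, e3]; ring

/-- the expected number of bits which describe the sent word `x` when the word received over the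
channel is known -/
noncomputable def pe (δ : ℝ) (C : Finset (Fin n → Bool)) (x : Fin n → Bool) : ℝ :=
  ex δ x fun y => Real.logb 2 (mix δ C y / kern δ x y)

/-- the equivocation of the code -/
noncomputable def eqv (δ : ℝ) (C : Finset (Fin n → Bool)) : ℝ := (∑ x ∈ C, pe δ C x) / C.card

lemma pe_eq {δ : ℝ} (h0 : 0 < δ) (h1 : δ < 1) {C : Finset (Fin n → Bool)}
    (hC : C.Nonempty) (x : Fin n → Bool) :
    pe δ C x = Real.logb 2 C.card + n * H δ - ex δ x (fC δ C) / Real.log 2 := by
  have hlog : Real.log 2 ≠ 0 := (Real.log_pos (by norm_num)).ne'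
  have hc : (0 : ℝ) < C.card := by exact_mod_cast hC.card_pos
  have e : ∀ y, kern δ x y * Real.logb 2 (mix δ C y / kern δ x y) =
      (Real.log C.card / Real.log 2) * kern δ x y -
      (1 / Real.log 2) * (kern δ x y * fC δ C y) -
      (1 / Real.log 2) * (kern δ x y * Real.log (kern δ x y)) := by
    intro y
    have p1 := mix_pos h0 h1 hC y
    have p2 := kern_pos h0 h1 x y
    unfold Real.logb fC
    rw [Real.log_div p1.ne' p2.ne', Real.log_div p1.ne' hc.ne']
    field_simp
    ring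
  unfold pe
  have h2 := ent_kern h0 h1 n x
  unfold ex at h2 ⊢
  simp_rw [e]
  rw [Finset.sum_sub_distrib, Finset.sum_sub_distrib, ← Finset.mul_sum, ← Finset.mul_sum,
    ← Finset.mul_sum, sum_kern, h2, ← H_eq]
  unfold Real.logb
  field_simp
  ring

/-- the excess of `log₂ A(n, ⌈δ n⌉)` over the bound of Gilbert and Varshamov -/
noncomputable def excess (δ : ℝ) (n : ℕ) : ℝ := Real.logb 2 (A n ⌈δ * n⌉₊) - (1 - H δ) * n

/-- `B(n) = G + ln ((1 - δ) / δ) √(n (G + 1) / (2 ln 2))`, `G` the excess -/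
noncomputable def bnd (δ : ℝ) (n : ℕ) : ℝ :=
  excess δ n + Real.log ((1 - δ) / δ) * √(n * (excess δ n + 1) / (2 * Real.log 2))

lemma A_eq (δ : ℝ) (n : ℕ) : (A n ⌈δ * n⌉₊ : ℝ) = (2 : ℝ) ^ (excess δ n + (1 - H δ) * n) := by
  unfold excess
  have hpos : (0 : ℝ) < A n ⌈δ * n⌉₊ := by exact_mod_cast A_pos _ _
  rw [sub_add_cancel, Real.rpow_logb (by norm_num) (by norm_num) hpos]

lemma excess_nonneg {δ : ℝ} (h0 : 0 < δ) (h1 : δ ≤ 1 / 2) {n : ℕ} (hn : 1 ≤ n) :
    0 ≤ excess δ n := by
  classical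
  have hn0 : (0 : ℝ) < n := by exact_mod_cast hn
  have hd : 1 ≤ ⌈δ * n⌉₊ := Nat.one_le_iff_ne_zero.2 (Nat.ceil_pos.2 (by positivity)).ne'
  have h : IsCode ⌈δ * n⌉₊ ({fun _ => false} : Finset (Fin n → Bool)) := by
    intro x hx y hy hxy
    rw [Finset.mem_singleton] at hx hy
    exact absurd (hx.trans hy.symm) hxy
  have h2 := replacement hd _ h
  have h3 : ((nbhd ⌈δ * n⌉₊ ({fun _ => false} : Finset (Fin n → Bool))).card : ℝ) ≤
      (2 : ℝ) ^ (H δ * n) := by
    refine le_trans ?_ (volume h0 h1 n)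
    norm_cast
    apply Finset.card_le_card
    intro v hv
    rw [mem_nbhd] at hv
    obtain ⟨x, hx, hxv⟩ := hv
    rw [Finset.mem_singleton] at hx
    subst hx
    rw [Finset.mem_filter]
    refine ⟨Finset.mem_univ _, ?_⟩
    have e : weight v = hammingDist (fun _ => false) v := by
      unfold weight hammingDist
      congr 1
      ext i
      simp
    rw [e]
    exact (Nat.lt_ceil.1 hxv).le
  have h4 : ((1 : ℕ) : ℝ) * 2 ^ n ≤ A n ⌈δ * n⌉₊ *
      ((nbhd ⌈δ * n⌉₊ ({fun _ => false} : Finset (Fin n → Bool))).card : ℝ) := by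
    rw [Finset.card_singleton] at h2
    exact_mod_cast h2
  have h5 : (2 : ℝ) ^ (n : ℝ) ≤ (2 : ℝ) ^ (excess δ n + (1 - H δ) * n + H δ * n) := by
    rw [Real.rpow_add (by norm_num) _ (H δ * n), ← A_eq, Real.rpow_natCast]
    calc (2 : ℝ) ^ n = ((1 : ℕ) : ℝ) * 2 ^ n := by simp
      _ ≤ _ := h4
      _ ≤ _ := mul_le_mul_of_nonneg_left h3 (Nat.cast_nonneg _)
  rw [Real.rpow_le_rpow_left_iff (by norm_num)] at h5
  linarith

/-- **Few words of a code have a large equivocation.** -/
theorem tail_pe {δ : ℝ} (h0 : 0 < δ) (h1 : δ < 1 / 2) (hn : 1 ≤ n) {C : Finset (Fin n → Bool)}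
    (hC : C.Nonempty) (hcode : IsCode ⌈δ * n⌉₊ C) (a : ℝ) :
    ((C.filter fun x => bnd δ n + a ≤ pe δ C x).card : ℝ) ≤ (2 : ℝ) ^ (1 - a) * C.card := by
  classical
  have hlog : 0 < Real.log 2 := Real.log_pos (by norm_num)
  have hn0 : (0 : ℝ) < n := by exact_mod_cast hn
  have hc : (0 : ℝ) < C.card := by exact_mod_cast hC.card_pos
  have hL : 0 < Real.log ((1 - δ) / δ) := by
    apply Real.log_pos
    rw [lt_div_iff₀ h0]
    linarith
  have hG := excess_nonneg h0 h1.le hn
  set L : ℝ := Real.log ((1 - δ) / δ) with hLdef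
  set G : ℝ := excess δ n with hGdef
  set I := C.filter fun x => bnd δ n + a ≤ pe δ C x with hI
  set t : ℝ := L * √(n * (G + 1) / (2 * Real.log 2)) * Real.log 2 with ht
  have ht0 : 0 ≤ t := by rw [ht]; positivity
  have htt : 2 * t ^ 2 / (n * L ^ 2) = (G + 1) * Real.log 2 := by
    rw [ht, mul_pow, mul_pow, Real.sq_sqrt (by positivity)]
    field_simp
  have hA : 2 * (A n ⌈δ * n⌉₊ : ℝ) ≤
      (2 : ℝ) ^ ((1 - H δ) * n) * Real.exp (2 * t ^ 2 / (n * L ^ 2)) := by
    rw [htt, A_eq, mul_comm (G + 1), ← two_rpow, ← Real.rpow_add (by norm_num)]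
    nth_rewrite 1 [show (2 : ℝ) = 2 ^ (1 : ℝ) by norm_num]
    rw [← Real.rpow_add (by norm_num)]
    apply le_of_eq
    congr 1
    rw [← hGdef]
    ring
  have hm := master h0 h1.le hn hL (fC δ C) (lip_fC h0 h1.le hC)
    (sum_exp_fC h0 (by linarith) hC).le ht0 hA I
    (fun x hx y hy hxy => hcode x (Finset.mem_filter.1 hx).1 y (Finset.mem_filter.1 hy).1 hxy)
    (T := (Real.logb 2 C.card + n * H δ - (bnd δ n + a)) * Real.log 2) (by
      intro x hx
      have h2 := (Finset.mem_filter.1 hx).2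
      rw [pe_eq h0 (by linarith) hC] at h2
      have h3 : ex δ x (fC δ C) / Real.log 2 ≤
          Real.logb 2 C.card + n * H δ - (bnd δ n + a) := by linarith
      rwa [div_le_iff₀ hlog] at h3)
  have e1 : (Real.logb 2 C.card + n * H δ - (bnd δ n + a)) * Real.log 2 + t =
      Real.log 2 * (Real.logb 2 C.card + (n * H δ - a - G)) := by
    rw [ht]
    unfold bnd
    ring
  rw [e1, ← two_rpow, A_eq, Real.rpow_add (by norm_num) (Real.logb 2 C.card),
    Real.rpow_logb (by norm_num) (by norm_num) hc] at hm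
  have e2 : 2 * (2 : ℝ) ^ (excess δ n + (1 - H δ) * n) *
      ((C.card : ℝ) * (2 : ℝ) ^ (n * H δ - a - G)) = (2 : ℝ) ^ (1 - a) * C.card * 2 ^ n := by
    have e3 : 2 * (2 : ℝ) ^ (excess δ n + (1 - H δ) * n) * (2 : ℝ) ^ (n * H δ - a - G) =
        (2 : ℝ) ^ (1 - a) * 2 ^ n := by
      nth_rewrite 1 [show (2 : ℝ) = 2 ^ (1 : ℝ) by norm_num]
      rw [← Real.rpow_natCast 2 n, ← Real.rpow_add (by norm_num), ← Real.rpow_add (by norm_num),
        ← Real.rpow_add (by norm_num)]
      congr 1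
      rw [← hGdef]
      ring
    calc 2 * (2 : ℝ) ^ (excess δ n + (1 - H δ) * n) *
      ((C.card : ℝ) * (2 : ℝ) ^ (n * H δ - a - G))
        = (2 * (2 : ℝ) ^ (excess δ n + (1 - H δ) * n) * (2 : ℝ) ^ (n * H δ - a - G)) * C.card := by
          ring
      _ = _ := by rw [e3]; ring
  rw [e2] at hm
  exact le_of_mul_le_mul_right hm (by positivity)

lemma layer (y : ℝ) (K : ℕ) (hy : y ≤ K) :
    y ≤ ∑ k ∈ Finset.range K, if (k : ℝ) ≤ y then (1 : ℝ) else 0 := by
  induction K with
  | zero => simpa using hy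
  | succ K ih =>
    rw [Finset.sum_range_succ]
    by_cases h : y ≤ K
    · have := ih h
      have h2 : (0 : ℝ) ≤ if (K : ℝ) ≤ y then (1 : ℝ) else 0 := by split_ifs <;> norm_num
      linarith
    · push Not at h
      rw [if_pos h.le]
      have e : ∑ k ∈ Finset.range K, (if (k : ℝ) ≤ y then (1 : ℝ) else 0) = K := by
        rw [Finset.sum_congr rfl (g := fun _ => (1 : ℝ))]
        · simp
        · intro k hk
          rw [Finset.mem_range] at hk
          have : (k : ℝ) ≤ K := by exact_mod_cast hk.le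
          rw [if_pos (by linarith)]
      rw [e]
      push_cast at hy
      exact hy

lemma geom (K : ℕ) : ∑ k ∈ Finset.range K, (2 : ℝ) ^ (1 - (k : ℝ)) ≤ 4 := by
  have h : ∀ K : ℕ, ∑ k ∈ Finset.range K, (2 : ℝ) ^ (1 - (k : ℝ)) = 4 - 4 * (2 : ℝ) ^ (-(K : ℝ)) := by
    intro K
    induction K with
    | zero => simp
    | succ K ih =>
      rw [Finset.sum_range_succ, ih]
      push_cast
      have e1 : (2 : ℝ) ^ (1 - (K : ℝ)) = 2 * (2 : ℝ) ^ (-(K : ℝ)) := by
        rw [sub_eq_add_neg, Real.rpow_add (by norm_num), Real.rpow_one]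
      have e2 : (2 : ℝ) ^ (-((K : ℝ) + 1)) = (2 : ℝ) ^ (-(K : ℝ)) / 2 := by
        rw [neg_add, Real.rpow_add (by norm_num), Real.rpow_neg_one]
        ring
      rw [e1, e2]
      ring
  rw [h]
  have : 0 < (2 : ℝ) ^ (-(K : ℝ)) := by positivity
  linarith

/-- **The equivocation of a code.** -/
theorem eqv_le {δ : ℝ} (h0 : 0 < δ) (h1 : δ < 1 / 2) (hn : 1 ≤ n) {C : Finset (Fin n → Bool)}
    (hC : C.Nonempty) (hcode : IsCode ⌈δ * n⌉₊ C) : eqv δ C ≤ bnd δ n + 4 := by
  classical
  have hc : (0 : ℝ) < C.card := by exact_mod_cast hC.card_pos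
  obtain ⟨x₀, hx₀, hmax⟩ := C.exists_max_image (fun x => pe δ C x) hC
  obtain ⟨K, hK⟩ := exists_nat_ge (pe δ C x₀ - bnd δ n)
  have h2 : ∑ x ∈ C, (pe δ C x - bnd δ n) ≤ 4 * C.card := by
    calc ∑ x ∈ C, (pe δ C x - bnd δ n)
        ≤ ∑ x ∈ C, ∑ k ∈ Finset.range K, (if (k : ℝ) ≤ pe δ C x - bnd δ n then (1 : ℝ) else 0) :=
          Finset.sum_le_sum fun x hx => layer _ K (by have := hmax x hx; linarith)
      _ = ∑ k ∈ Finset.range K, ((C.filter fun x => bnd δ n + k ≤ pe δ C x).card : ℝ) := by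
          rw [Finset.sum_comm]
          apply Finset.sum_congr rfl
          intro k _
          rw [Finset.card_filter]
          push_cast
          apply Finset.sum_congr rfl
          intro x _
          by_cases h : bnd δ n + k ≤ pe δ C x
          · rw [if_pos h, if_pos (by linarith)]
          · rw [if_neg h, if_neg (by intro h'; exact h (by linarith))]
      _ ≤ ∑ k ∈ Finset.range K, (2 : ℝ) ^ (1 - (k : ℝ)) * C.card :=
          Finset.sum_le_sum fun k _ => tail_pe h0 h1 hn hC hcode k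
      _ = (∑ k ∈ Finset.range K, (2 : ℝ) ^ (1 - (k : ℝ))) * C.card := by rw [Finset.sum_mul]
      _ ≤ 4 * C.card := mul_le_mul_of_nonneg_right (geom K) hc.le
  rw [Finset.sum_sub_distrib, Finset.sum_const, nsmul_eq_mul] at h2
  unfold eqv
  rw [div_le_iff₀ hc]
  linarith

/-- comparison with a distribution `Q` of the received words -/
theorem test_bound {δ : ℝ} (h0 : 0 < δ) (h1 : δ < 1) {C : Finset (Fin n → Bool)}
    (hC : C.Nonempty) (Q : (Fin n → Bool) → ℝ) (hQ : ∀ y, 0 < Q y) (hs : ∑ y, Q y ≤ 1) {T : ℝ}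
    (hT : ∀ x ∈ C, ex δ x (fun y => -Real.logb 2 (Q y)) ≤ T) :
    Real.logb 2 C.card ≤ T - n * H δ + eqv δ C := by
  have hlog : 0 < Real.log 2 := Real.log_pos (by norm_num)
  have hc : (0 : ℝ) < C.card := by exact_mod_cast hC.card_pos
  have h2 : ∑ x ∈ C, ex δ x (fC δ C) ≤ ∑ x ∈ C, ex δ x (fun y => -Real.log (Q y)) := by
    rw [sum_ex, sum_ex, ← sub_nonneg, ← Finset.sum_sub_distrib]
    have h3 : ∀ y : Fin n → Bool, mix δ C y - C.card * Q y ≤
        mix δ C y * -Real.log (Q y) - mix δ C y * fC δ C y := by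
      intro y
      have p1 := mix_pos h0 h1 hC y
      have h4 := Real.log_le_sub_one_of_pos (x := Q y * C.card / mix δ C y)
        (div_pos (mul_pos (hQ y) hc) p1)
      have e1 : Real.log (Q y * C.card / mix δ C y) = Real.log (Q y) + fC δ C y := by
        unfold fC
        rw [Real.log_div (mul_pos (hQ y) hc).ne' p1.ne', Real.log_div p1.ne' hc.ne',
          Real.log_mul (hQ y).ne' hc.ne']
        ring
      rw [e1] at h4
      have h5 := mul_le_mul_of_nonneg_left h4 p1.le
      have e2 : mix δ C y * (Q y * C.card / mix δ C y - 1) = Q y * C.card - mix δ C y := by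
        field_simp
      rw [e2] at h5
      linarith
    refine le_trans ?_ (Finset.sum_le_sum fun y _ => h3 y)
    rw [Finset.sum_sub_distrib, sum_mix, ← Finset.mul_sum]
    nlinarith
  have h6 : ∑ x ∈ C, ex δ x (fun y => -Real.log (Q y)) ≤ C.card * (T * Real.log 2) := by
    rw [← nsmul_eq_mul, ← Finset.sum_const]
    apply Finset.sum_le_sum
    intro x hx
    have h7 := hT x hx
    have e : ex δ x (fun y => -Real.logb 2 (Q y)) = ex δ x (fun y => -Real.log (Q y)) / Real.log 2 := by
      unfold ex Real.logb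
      rw [Finset.sum_div]
      exact Finset.sum_congr rfl fun y _ => by ring
    rw [e, div_le_iff₀ hlog] at h7
    exact h7
  have h8 : ∑ x ∈ C, pe δ C x = C.card * (Real.logb 2 C.card + n * H δ) -
      (∑ x ∈ C, ex δ x (fC δ C)) / Real.log 2 := by
    rw [Finset.sum_congr rfl (fun x _ => pe_eq h0 h1 hC x), Finset.sum_sub_distrib,
      Finset.sum_const, nsmul_eq_mul, Finset.sum_div]
  have h9 : eqv δ C * C.card = ∑ x ∈ C, pe δ C x := by
    unfold eqv
    rw [div_mul_cancel₀ _ hc.ne']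
  have h10 : (∑ x ∈ C, ex δ x (fC δ C)) / Real.log 2 ≤ C.card * T := by
    rw [div_le_iff₀ hlog]
    linarith
  have h11 : C.card * (Real.logb 2 C.card + n * H δ - T) ≤ C.card * eqv δ C := by
    rw [mul_comm (C.card : ℝ) (eqv δ C), h9, h8]
    linarith
  have h12 := le_of_mul_le_mul_left h11 hc
  linarith

/-- the equivocation is at least the excess of the rate over the capacity of the channel -/
lemma eqv_ge {δ : ℝ} (h0 : 0 < δ) (h1 : δ < 1) {C : Finset (Fin n → Bool)}
    (hC : C.Nonempty) : Real.logb 2 C.card - (1 - H δ) * n ≤ eqv δ C := by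
  have h := test_bound h0 h1 hC (fun _ => (1 / 2 : ℝ) ^ n) (fun _ => by positivity)
    (by simp) (T := n) (by
      intro x _
      have e : Real.logb 2 ((1 / 2 : ℝ) ^ n) = -(n : ℝ) := by
        rw [Real.logb_pow, one_div, Real.logb_inv, Real.logb_self_eq_one (by norm_num)]
        ring
      unfold ex
      simp_rw [e]
      rw [← Finset.sum_mul, sum_kern]
      simp)
  linarith

end Pool.Agent.Helper89K9.GV
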