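import Pool.Agent.Helper89K9.GV.Tfae

/-!
Codes whose words satisfy sparse parity equations.
-/

set_option autoImplicit false

namespace Pool.Agent.Helper89K9.GV

open Finset Filter
open Pool.Agent.Results.MP_0430e4_lc.ConstantWeightCriterion

/-- `0` or `1` modulo `2` -/
def bit (b : Bool) : ZMod 2 := if b then 1 else 0

/-- the parity check `h` applied to the word `x` -/
def chk {n : ℕ} (h : Fin n → ZMod 2) (x : Fin n → Bool) : ZMod 2 := ∑ i, h i * bit (x i)

/-- the number of the variables of the parity check -/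
def wt {n : ℕ} (h : Fin n → ZMod 2) : ℕ := (univ.filter fun i => h i ≠ 0).card

/-- the sign `(-1) ^ a` -/
def sg (a : ZMod 2) : ℝ := if a = 0 then 1 else -1

lemma sg_add (a b : ZMod 2) : sg (a + b) = sg a * sg b := by
  have h : ∀ a b : ZMod 2, (a + b = 0 ↔ (a = 0 ↔ b = 0)) := by decide
  unfold sg
  by_cases ha : a = 0 <;> by_cases hb : b = 0 <;> simp [h, ha, hb]

lemma sg_zero : sg 0 = 1 := by simp [sg]

lemma sg_sum {ι : Type} (s : Finset ι) (f : ι → ZMod 2) : sg (∑ i ∈ s, f i) = ∏ i ∈ s, sg (f i) := by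
  classical
  induction s using Finset.induction_on with
  | empty => simp [sg_zero]
  | insert a s ha ih => rw [Finset.sum_insert ha, Finset.prod_insert ha, sg_add, ih]

lemma sg_self (a : ZMod 2) : sg (a + a) = 1 := by
  have : a + a = 0 := by revert a; decide
  rw [this, sg_zero]

lemma sg_cases (a : ZMod 2) : sg a = 1 ∨ sg a = -1 := by
  unfold sg
  split_ifs <;> simp

lemma chk_add {n : ℕ} {ι : Type} (s : Finset ι) (h : ι → Fin n → ZMod 2) (x : Fin n → Bool) :
    chk (∑ j ∈ s, h j) x = ∑ j ∈ s, chk (h j) x := by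
  unfold chk
  rw [Finset.sum_comm]
  apply Finset.sum_congr rfl
  intro i _
  rw [Finset.sum_apply, Finset.sum_mul]

/-- the sum over all words of the sign of a parity check -/
lemma sum_sg {n : ℕ} {h : Fin n → ZMod 2} (hh : h ≠ 0) :
    ∑ y : Fin n → Bool, sg (chk h y) = 0 := by
  unfold chk
  simp_rw [sg_sum]
  rw [sum_prod (fun i b => sg (h i * bit b))]
  obtain ⟨i, hi⟩ := Function.ne_iff.1 hh
  apply Finset.prod_eq_zero (Finset.mem_univ i)
  have h1 : h i = 1 := by
    have : ∀ a : ZMod 2, a ≠ 0 → a = 1 := by decide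
    exact this _ hi
  rw [h1]
  simp [bit, sg]

/-- the expected sign of a parity check after noise -/
lemma ex_sg {n : ℕ} (δ : ℝ) (h : Fin n → ZMod 2) (x : Fin n → Bool) :
    ex δ x (fun y => sg (chk h y)) = (1 - 2 * δ) ^ wt h * sg (chk h x) := by
  unfold ex kern chk
  simp_rw [sg_sum]
  simp_rw [← Finset.prod_mul_distrib]
  rw [sum_prod (fun i b => nz δ (x i) b * sg (h i * bit b))]
  have e : (1 - 2 * δ) ^ wt h = ∏ i, (if h i ≠ 0 then 1 - 2 * δ else 1) := by
    rw [Finset.prod_ite, Finset.prod_const, Finset.prod_const_one, mul_one]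
    rfl
  rw [e, ← Finset.prod_mul_distrib]
  apply Finset.prod_congr rfl
  intro i _
  have h2 : ∀ a : ZMod 2, a = 0 ∨ a = 1 := by decide
  rcases h2 (h i) with h3 | h3
  · rw [h3]
    cases x i <;> simp [nz, sg]
  · rw [h3]
    cases x i <;> simp [nz, sg, bit] <;> ring

lemma sum_ne_zero {n r : ℕ} {h : Fin r → Fin n → ZMod 2} (hh : LinearIndependent (ZMod 2) h)
    {J : Finset (Fin r)} (hJ : J.Nonempty) : ∑ j ∈ J, h j ≠ 0 := by
  classical
  intro h0
  obtain ⟨k, hk⟩ := hJ
  have h2 := Fintype.linearIndependent_iff.1 hh (fun j => if j ∈ J then 1 else 0) (by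
    rw [← h0]
    simp [Finset.sum_ite_mem]) k
  simp [hk] at h2

/-- independent parity checks behave like independent variables -/
lemma sum_prod_sg {n r : ℕ} {h : Fin r → Fin n → ZMod 2} (hh : LinearIndependent (ZMod 2) h)
    (b : Fin r → ZMod 2) (c : ℝ) :
    ∑ y : Fin n → Bool, ∏ j, (1 + c * sg (chk (h j) y + b j)) = 2 ^ n := by
  classical
  have e1 : ∀ y : Fin n → Bool, ∏ j, (1 + c * sg (chk (h j) y + b j)) =
      ∑ J ∈ (univ : Finset (Fin r)).powerset,
        c ^ J.card * sg (∑ j ∈ J, b j) * sg (chk (∑ j ∈ J, h j) y) := by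
    intro y
    rw [Finset.prod_one_add]
    apply Finset.sum_congr rfl
    intro J _
    rw [Finset.prod_mul_distrib, Finset.prod_const, ← sg_sum, Finset.sum_add_distrib, sg_add,
      chk_add]
    ring
  simp_rw [e1]
  rw [Finset.sum_comm]
  simp_rw [← Finset.mul_sum]
  rw [Finset.sum_eq_single ∅]
  · simp [chk, sg]
  · intro J _ hJ
    rw [sum_sg (sum_ne_zero hh (Finset.nonempty_iff_ne_empty.2 hJ)), mul_zero]
  · intro hn
    simp at hn

/-- `p(w) = (1 - (1 - 2 δ)^w) / 2`, the probability that `w` noisy bits have the wrong parity -/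
noncomputable def pw (δ : ℝ) (w : ℕ) : ℝ := (1 - (1 - 2 * δ) ^ w) / 2

lemma pw_mem {δ : ℝ} (h0 : 0 < δ) (h1 : δ < 1 / 2) {w : ℕ} (hw : 1 ≤ w) :
    0 < pw δ w ∧ pw δ w < 1 / 2 := by
  have a1 : 0 < (1 - 2 * δ) ^ w := pow_pos (by linarith) _
  have a2 : (1 - 2 * δ) ^ w < 1 := pow_lt_one₀ (by linarith) (by linarith) (by omega)
  unfold pw
  constructor <;> linarith

/-- **Codes satisfying sparse parity equations.** -/
theorem parity_bound {δ : ℝ} (h0 : 0 < δ) (h1 : δ < 1 / 2) {n r w : ℕ} (hw : 1 ≤ w)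
    {h : Fin r → Fin n → ZMod 2} (hh : LinearIndependent (ZMod 2) h) (hwt : ∀ j, wt (h j) ≤ w)
    (b : Fin r → ZMod 2) {C : Finset (Fin n → Bool)} (hC : C.Nonempty)
    (hpar : ∀ x ∈ C, ∀ j, chk (h j) x = b j) :
    Real.logb 2 C.card ≤ (1 - H δ) * n - (1 - H (pw δ w)) * r + eqv δ C := by
  classical
  have hlog : 0 < Real.log 2 := Real.log_pos (by norm_num)
  obtain ⟨p0, p1⟩ := pw_mem h0 h1 hw
  set p := pw δ w with hp
  have hfac : ∀ a : ZMod 2, 0 < 1 + (1 - 2 * p) * sg a := by
    intro a
    rcases sg_cases a with h2 | h2 <;> rw [h2] <;> linarith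
  set Q : (Fin n → Bool) → ℝ := fun y =>
    (1 / 2) ^ n * ∏ j, (1 + (1 - 2 * p) * sg (chk (h j) y + b j)) with hQ
  have hQpos : ∀ y, 0 < Q y := fun y =>
    mul_pos (by positivity) (Finset.prod_pos fun j _ => hfac _)
  have hQsum : ∑ y, Q y = 1 := by
    rw [hQ]
    simp only
    rw [← Finset.mul_sum, sum_prod_sg hh, ← mul_pow]
    norm_num
  -- the logarithm is a linear function of the sign
  set α : ℝ := (Real.logb 2 (2 * (1 - p)) + Real.logb 2 (2 * p)) / 2 with hα
  set β : ℝ := (Real.logb 2 (2 * (1 - p)) - Real.logb 2 (2 * p)) / 2 with hβ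
  have hlin : ∀ a : ZMod 2, Real.logb 2 (1 + (1 - 2 * p) * sg a) = α + β * sg a := by
    intro a
    rcases sg_cases a with h2 | h2 <;> rw [h2, hα, hβ]
    · rw [show 1 + (1 - 2 * p) * 1 = 2 * (1 - p) by ring]; ring
    · rw [show 1 + (1 - 2 * p) * -1 = 2 * p by ring]; ring
  have hβ0 : 0 ≤ β := by
    have : Real.logb 2 (2 * p) ≤ Real.logb 2 (2 * (1 - p)) :=
      Real.logb_le_logb_of_le (by norm_num) (by linarith) (by linarith)
    rw [hβ]
    linarith
  have hval : α + β * (1 - 2 * p) = 1 - H p := by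
    have e1 : Real.logb 2 (2 * (1 - p)) = 1 + Real.logb 2 (1 - p) := by
      rw [Real.logb_mul (by norm_num) (by linarith), Real.logb_self_eq_one (by norm_num)]
    have e2 : Real.logb 2 (2 * p) = 1 + Real.logb 2 p := by
      rw [Real.logb_mul (by norm_num) (by linarith), Real.logb_self_eq_one (by norm_num)]
    rw [hα, hβ, e1, e2]
    unfold H
    ring
  have hT : ∀ x ∈ C, ex δ x (fun y => -Real.logb 2 (Q y)) ≤ n - (1 - H p) * r := by
    intro x hx
    have e1 : ∀ y, -Real.logb 2 (Q y) = (n - r * α) - β * ∑ j, sg (chk (h j) y + b j) := by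
      intro y
      rw [hQ]
      simp only
      rw [Real.logb_mul (by positivity) (Finset.prod_pos fun j _ => hfac _).ne',
        Real.logb_prod _ _ (fun j _ => (hfac _).ne'), Real.logb_pow, one_div, Real.logb_inv,
        Real.logb_self_eq_one (by norm_num)]
      simp_rw [hlin]
      rw [Finset.sum_add_distrib, ← Finset.mul_sum]
      simp
      ring
    have e2 : ex δ x (fun y => -Real.logb 2 (Q y)) = (n - r * α) -
        β * ∑ j, ((1 - 2 * δ) ^ wt (h j) * sg (chk (h j) x) * sg (b j)) := by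
      unfold ex
      have e4 : ∀ y, kern δ x y * -Real.logb 2 (Q y) = (n - r * α) * kern δ x y -
          kern δ x y * (β * ∑ j, sg (chk (h j) y + b j)) := by
        intro y
        rw [e1]
        ring
      simp_rw [e4]
      rw [Finset.sum_sub_distrib, ← Finset.mul_sum, sum_kern, mul_one]
      congr 1
      have e3 : ∀ j, (1 - 2 * δ) ^ wt (h j) * sg (chk (h j) x) * sg (b j) =
          ∑ y, kern δ x y * sg (chk (h j) y + b j) := by
        intro j
        have := ex_sg δ (h j) x
        unfold ex at this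
        rw [← this, Finset.sum_mul]
        apply Finset.sum_congr rfl
        intro y _
        rw [sg_add]
        ring
      simp_rw [e3]
      rw [Finset.sum_comm, Finset.mul_sum]
      apply Finset.sum_congr rfl
      intro y _
      rw [← Finset.mul_sum]
      ring
    rw [e2]
    have h3 : (1 - 2 * p) * r ≤ ∑ j, ((1 - 2 * δ) ^ wt (h j) * sg (chk (h j) x) * sg (b j)) := by
      have e4 : (1 - 2 * p) * r = ∑ _j : Fin r, (1 - 2 * p) := by
        simp
        ring
      rw [e4]
      apply Finset.sum_le_sum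
      intro j _
      rw [mul_assoc, ← sg_add, hpar x hx j, sg_self, mul_one]
      have e5 : 1 - 2 * p = (1 - 2 * δ) ^ w := by
        rw [hp]
        unfold pw
        ring
      rw [e5]
      exact pow_le_pow_of_le_one (by linarith) (by linarith) (hwt j)
    have h4 := mul_le_mul_of_nonneg_left h3 hβ0
    rw [← hval]
    nlinarith
  have h5 := test_bound h0 (by linarith : δ < 1) hC Q hQpos hQsum.le hT
  linarith

/-- the number of the solutions of independent parity equations -/
theorem card_solutions {n r : ℕ} {h : Fin r → Fin n → ZMod 2} (hh : LinearIndependent (ZMod 2) h)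
    (b : Fin r → ZMod 2) :
    ((univ.filter fun x : Fin n → Bool => ∀ j, chk (h j) x = b j).card : ℝ) * 2 ^ r = 2 ^ n := by
  classical
  rw [← sum_prod_sg hh b 1, Finset.card_filter]
  push_cast
  rw [Finset.sum_mul]
  apply Finset.sum_congr rfl
  intro x _
  have h2 : ∀ a b : ZMod 2, 1 + 1 * sg (a + b) = if a = b then 2 else 0 := by
    intro a b
    have h3 : ∀ a b : ZMod 2, (a + b = 0 ↔ a = b) := by decide
    unfold sg
    by_cases hab : a = b
    · rw [if_pos ((h3 a b).2 hab), if_pos hab]; norm_num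
    · rw [if_neg (fun h => hab ((h3 a b).1 h)), if_neg hab]; norm_num
  simp_rw [h2]
  by_cases hx : ∀ j, chk (h j) x = b j
  · rw [if_pos hx]
    rw [Finset.prod_congr rfl (fun j _ => if_pos (hx j))]
    simp
  · rw [if_neg hx]
    push Not at hx
    obtain ⟨j, hj⟩ := hx
    rw [Finset.prod_eq_zero (Finset.mem_univ j) (if_neg hj)]
    simp

/-- **Codes whose words satisfy parity equations with few equations per variable are exponentially
smaller than the best codes.** -/
theorem sparse_columns {δ τ : ℝ} (h0 : 0 < δ) {n r D : ℕ} (hn : 1 ≤ n)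
    (hτ0 : 0 < τ) (hτ : τ ≤ 1 / 2) {h : Fin r → Fin n → ZMod 2}
    (hh : LinearIndependent (ZMod 2) h)
    (hcol : ∀ i, (univ.filter fun j => h j i ≠ 0).card ≤ D) (hD : D * (δ * n) ≤ τ * r)
    (b : Fin r → ZMod 2) {C : Finset (Fin n → Bool)} (hcode : IsCode ⌈δ * n⌉₊ C)
    (hpar : ∀ x ∈ C, ∀ j, chk (h j) x = b j) :
    (C.card : ℝ) ≤ (2 : ℝ) ^ (-((1 - H τ) * r)) * A n ⌈δ * n⌉₊ := by
  classical
  have hn0 : (0 : ℝ) < n := by exact_mod_cast hn
  have hd : 1 ≤ ⌈δ * n⌉₊ := Nat.one_le_iff_ne_zero.2 (Nat.ceil_pos.2 (by positivity)).ne'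
  have h1 := replacement hd C hcode
  have h1R : (C.card : ℝ) * 2 ^ n ≤ A n ⌈δ * n⌉₊ * ((nbhd ⌈δ * n⌉₊ C).card : ℝ) := by
    exact_mod_cast h1
  -- the number of the violated equations
  set viol : (Fin n → Bool) → Finset (Fin r) := fun v => univ.filter fun j => chk (h j) v ≠ b j
    with hviol
  have hsub : nbhd ⌈δ * n⌉₊ C ⊆
      univ.filter fun v : Fin n → Bool => ((viol v).card : ℝ) ≤ τ * r := by
    intro v hv
    rw [mem_nbhd] at hv
    obtain ⟨x, hx, hxv⟩ := hv
    rw [Finset.mem_filter]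
    refine ⟨Finset.mem_univ _, ?_⟩
    have hdist : (hammingDist x v : ℝ) ≤ δ * n := (Nat.lt_ceil.1 hxv).le
    have hss : viol v ⊆ (univ.filter fun i => x i ≠ v i).biUnion
        (fun i => univ.filter fun j => h j i ≠ 0) := by
      intro j hj
      rw [hviol, Finset.mem_filter] at hj
      by_contra hcon
      apply hj.2
      rw [← hpar x hx j]
      unfold chk
      apply Finset.sum_congr rfl
      intro i _
      by_cases hi : x i = v i
      · rw [hi]
      · by_cases hji : h j i = 0
        · rw [hji, zero_mul, zero_mul]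
        · exfalso
          apply hcon
          rw [Finset.mem_biUnion]
          exact ⟨i, by simp [hi], by simp [hji]⟩
    have hcard : (viol v).card ≤ hammingDist x v * D := by
      refine (Finset.card_le_card hss).trans (Finset.card_biUnion_le.trans ?_)
      refine (Finset.sum_le_sum fun i _ => hcol i).trans ?_
      rw [Finset.sum_const, smul_eq_mul]
      rfl
    have : ((viol v).card : ℝ) ≤ hammingDist x v * D := by exact_mod_cast hcard
    refine this.trans (le_trans ?_ hD)
    rw [mul_comm]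
    exact mul_le_mul_of_nonneg_left hdist (Nat.cast_nonneg _)
  have h2 : ((nbhd ⌈δ * n⌉₊ C).card : ℝ) * (2 : ℝ) ^ (-(H τ * r)) ≤ 2 ^ n * (1 / 2) ^ r := by
    calc ((nbhd ⌈δ * n⌉₊ C).card : ℝ) * (2 : ℝ) ^ (-(H τ * r))
        ≤ ((univ.filter fun v : Fin n → Bool => ((viol v).card : ℝ) ≤ τ * r).card : ℝ) *
          (2 : ℝ) ^ (-(H τ * r)) := by
          apply mul_le_mul_of_nonneg_right _ (by positivity)
          exact_mod_cast Finset.card_le_card hsub
      _ ≤ ∑ v ∈ univ.filter (fun v : Fin n → Bool => ((viol v).card : ℝ) ≤ τ * r),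
          ∏ j, ((1 / 2) * (1 + (1 - 2 * τ) * sg (chk (h j) v + b j))) := by
          rw [← nsmul_eq_mul, ← Finset.sum_const]
          apply Finset.sum_le_sum
          intro v hv
          rw [Finset.mem_filter] at hv
          have e1 : ∏ j, ((1 / 2) * (1 + (1 - 2 * τ) * sg (chk (h j) v + b j))) =
              ∏ j, (if chk (h j) v ≠ b j then τ else 1 - τ) := by
            apply Finset.prod_congr rfl
            intro j _
            have h3 : ∀ a b : ZMod 2, (a + b = 0 ↔ a = b) := by decide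
            unfold sg
            by_cases hab : chk (h j) v = b j
            · rw [if_pos ((h3 _ _).2 hab), if_neg (not_not.2 hab)]; ring
            · rw [if_neg (fun h => hab ((h3 _ _).1 h)), if_pos hab]; ring
          rw [e1, prod_ite_eq (fun j => chk (h j) v ≠ b j)]
          exact pow_lower hτ0 hτ (by
            refine (Finset.card_le_univ _).trans ?_
            simp) hv.2
      _ ≤ ∑ v : Fin n → Bool, ∏ j, ((1 / 2) * (1 + (1 - 2 * τ) * sg (chk (h j) v + b j))) := by
          apply Finset.sum_le_sum_of_subset_of_nonneg (Finset.subset_univ _)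
          intro v _ _
          apply Finset.prod_nonneg
          intro j _
          rcases sg_cases (chk (h j) v + b j) with h3 | h3 <;> rw [h3] <;> linarith
      _ = 2 ^ n * (1 / 2) ^ r := by
          rw [← sum_prod_sg hh b (1 - 2 * τ), Finset.sum_mul]
          apply Finset.sum_congr rfl
          intro v _
          rw [Finset.prod_mul_distrib, Finset.prod_const, Finset.card_univ, Fintype.card_fin]
          ring
  have h3 : ((nbhd ⌈δ * n⌉₊ C).card : ℝ) ≤ 2 ^ n * (2 : ℝ) ^ (-((1 - H τ) * r)) := by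
    have h4 := mul_le_mul_of_nonneg_right h2 (by positivity : (0 : ℝ) ≤ (2 : ℝ) ^ (H τ * r))
    rw [mul_assoc, ← Real.rpow_add (by norm_num), neg_add_cancel, Real.rpow_zero, mul_one] at h4
    refine h4.trans (le_of_eq ?_)
    rw [mul_assoc]
    congr 1
    have e1 : ((1 : ℝ) / 2) ^ r = (2 : ℝ) ^ (-(r : ℝ)) := by
      rw [Real.rpow_neg (by norm_num), Real.rpow_natCast, one_div, inv_pow]
    rw [e1, ← Real.rpow_add (by norm_num)]
    congr 1
    ring
  have h4 : (C.card : ℝ) * 2 ^ n ≤
      ((2 : ℝ) ^ (-((1 - H τ) * r)) * A n ⌈δ * n⌉₊) * 2 ^ n := by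
    refine h1R.trans ((mul_le_mul_of_nonneg_left h3 (Nat.cast_nonneg _)).trans (le_of_eq ?_))
    ring
  exact le_of_mul_le_mul_right h4 (by positivity)

end Pool.Agent.Helper89K9.GV
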