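import Pool.Agent.Helper89K9.GV.Sub
import Pool.Agent.Helper89K9.GV.Parity

/-!
Codes of near optimal size.
-/

set_option autoImplicit false

namespace Pool.Agent.Helper89K9.GV

open Finset Filter
open Pool.Agent.Results.MP_0430e4_lc.ConstantWeightCriterion

/-- **Codes which transmit less information than the capacity of the channel are not optimal,**
unless they are above the Gilbert–Varshamov bound by a constant. -/
theorem near_opt {δ : ℝ} (h0 : 0 < δ) (h1 : δ < 1 / 2) {κ θ : ℝ} (hκ : 0 < κ)
    (hθ : θ < 2 * Real.log 2 * (κ / Real.log ((1 - δ) / δ)) ^ 2) :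
    ∃ c : ℝ, 0 < c ∧ ∃ N : ℕ, ∀ n ≥ N, ∀ C : Finset (Fin n → Bool), C.Nonempty →
      IsCode ⌈δ * n⌉₊ C → Real.logb 2 C.card - eqv δ C ≤ (1 - H δ - κ) * n →
      (C.card : ℝ) < (2 : ℝ) ^ ((1 - H δ + θ) * n) →
      (C.card : ℝ) ≤ (2 : ℝ) ^ (-(c * n)) * A n ⌈δ * n⌉₊ := by
  have hlog : 0 < Real.log 2 := Real.log_pos (by norm_num)
  have hL := log_ratio_pos h0 h1
  set L := Real.log ((1 - δ) / δ) with hLdef
  set Θ : ℝ := 2 * Real.log 2 * (κ / L) ^ 2 with hΘ
  have hΘ0 : 0 < Θ := by positivity
  set θ₀ : ℝ := max θ 0 with hθ₀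
  have hθ₀' : θ₀ < Θ := max_lt hθ hΘ0
  set θ' : ℝ := (θ₀ + Θ) / 2 with hθ'
  have hθ₀0 : 0 ≤ θ₀ := le_max_right _ _
  have g1 : θ₀ < θ' := by rw [hθ']; linarith
  have g2 : θ' < Θ := by rw [hθ']; linarith
  set κ' : ℝ := L * √(θ' / (2 * Real.log 2)) with hκ'
  have hκκ : κ' < κ := by
    have h3 : √(θ' / (2 * Real.log 2)) < κ / L := by
      rw [Real.sqrt_lt' (by positivity), div_lt_iff₀ (by positivity)]
      calc θ' < Θ := g2
        _ = (κ / L) ^ 2 * (2 * Real.log 2) := by rw [hΘ]; ring
    rw [lt_div_iff₀ hL] at h3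
    rw [hκ']
    linarith
  refine ⟨min (θ' - θ₀) ((κ - κ') / 2), lt_min (by linarith) (by linarith), ?_⟩
  have hev := ((err_tendsto δ).eventually (gt_mem_nhds (by linarith : (0 : ℝ) < (κ - κ') / 2))).and
    (eventually_ge_atTop 1)
  obtain ⟨N, hN⟩ := eventually_atTop.1 hev
  refine ⟨N, fun n hn C hC hcode hI hsize => ?_⟩
  obtain ⟨a1, hn1⟩ := hN n hn
  have hn0 : (0 : ℝ) < n := by exact_mod_cast hn1
  have hcC : (0 : ℝ) < C.card := by exact_mod_cast hC.card_pos
  have hG := excess_nonneg h0 h1.le hn1
  rw [A_eq, ← Real.rpow_add (by norm_num)]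
  by_cases hcase : θ' * n ≤ excess δ n
  · refine hsize.le.trans (Real.rpow_le_rpow_of_exponent_le (by norm_num) ?_)
    have h3 : min (θ' - θ₀) ((κ - κ') / 2) ≤ θ' - θ₀ := min_le_left _ _
    have h4 : θ ≤ θ₀ := le_max_left _ _
    nlinarith
  · push Not at hcase
    rw [← Real.logb_le_iff_le_rpow (by norm_num) hcC]
    have h3 := eqv_le h0 h1 hn1 hC hcode
    have h4 := bnd_le h0 h1 hn1
    rw [div_le_iff₀ hn0] at h4
    have h5 : phi δ (excess δ n / n) ≤ excess δ n / n + κ' := by
      unfold phi
      have h6 : √(excess δ n / n / (2 * Real.log 2)) ≤ √(θ' / (2 * Real.log 2)) := by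
        apply Real.sqrt_le_sqrt
        apply div_le_div_of_nonneg_right _ (by positivity)
        rw [div_le_iff₀ hn0]
        exact hcase.le
      have := mul_le_mul_of_nonneg_left h6 hL.le
      linarith
    have h6 : min (θ' - θ₀) ((κ - κ') / 2) ≤ (κ - κ') / 2 := min_le_right _ _
    have h7 : excess δ n / n * n = excess δ n := div_mul_cancel₀ _ hn0.ne'
    have h8 : bnd δ n + 4 ≤ excess δ n + (κ' + (κ - κ') / 2) * n := by
      calc bnd δ n + 4 ≤ (phi δ (excess δ n / n) + err δ n) * n := h4
        _ ≤ (excess δ n / n + κ' + (κ - κ') / 2) * n := by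
            apply mul_le_mul_of_nonneg_right _ hn0.le
            linarith
        _ = excess δ n / n * n + (κ' + (κ - κ') / 2) * n := by ring
        _ = _ := by rw [h7]
    have h9 := mul_le_mul_of_nonneg_right h6 hn0.le
    linarith

/-- **Unions of translates of a code in the solution set of sparse parity equations.** -/
theorem cosets {n r D d : ℕ} {h : Fin r → Fin n → ZMod 2}
    (hh : LinearIndependent (ZMod 2) h)
    (hcol : ∀ i, (univ.filter fun j => h j i ≠ 0).card ≤ D)
    (b : Fin r → ZMod 2) {C : Finset (Fin n → Bool)} (hcode : IsCode d C)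
    (hpar : ∀ x ∈ C, ∀ j, chk (h j) x = b j) :
    C.card * A r (D * d) ≤ A n d := by
  classical
  obtain ⟨S, hS, hScard⟩ := exists_A r (D * d)
  -- words with given syndromes
  have hex : ∀ s : Fin r → Bool, ∃ t : Fin n → Bool, ∀ j, chk (h j) t = bit (s j) := by
    intro s
    have h1 := card_solutions hh (fun j => bit (s j))
    by_contra hcon
    push Not at hcon
    have h2 : (univ.filter fun x : Fin n → Bool => ∀ j, chk (h j) x = bit (s j)) = ∅ := by
      apply Finset.filter_false_of_mem
      intro x _ hx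
      obtain ⟨j, hj⟩ := hcon x
      exact hj (hx j)
    rw [h2, Finset.card_empty, Nat.cast_zero, zero_mul] at h1
    have h3 : (0 : ℝ) < 2 ^ n := by positivity
    linarith
  choose t ht using hex
  have bit_xor : ∀ a b : Bool, bit (xor a b) = bit a + bit b := by decide
  have chk_tr : ∀ (g : Fin n → ZMod 2) (u v : Fin n → Bool), chk g (tr u v) = chk g u + chk g v := by
    intro g u v
    unfold chk tr
    rw [← Finset.sum_add_distrib]
    apply Finset.sum_congr rfl
    intro i _
    rw [bit_xor]
    ring
  have key : ∀ x ∈ C, ∀ y ∈ C, ∀ s ∈ S, ∀ s' ∈ S, s ≠ s' →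
      d ≤ hammingDist (tr (t s) x) (tr (t s') y) := by
    intro x hx y hy s hs s' hs' hne
    rcases Nat.eq_zero_or_pos D with hD | hD
    · -- no variable is in an equation
      exfalso
      apply hne
      funext j
      exfalso
      have h3 : h j = 0 := by
        funext i
        by_contra hi
        have h4 := hcol i
        rw [hD, Nat.le_zero, Finset.card_eq_zero] at h4
        have h5 : j ∈ univ.filter fun j => h j i ≠ 0 :=
          Finset.mem_filter.2 ⟨Finset.mem_univ _, hi⟩
        rw [h4] at h5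
        simp at h5
      exact hh.ne_zero j h3
    have h1 := hS s hs s' hs' hne
    have hss : (univ.filter fun j => s j ≠ s' j) ⊆
        (univ.filter fun i => (tr (t s) x) i ≠ (tr (t s') y) i).biUnion
          (fun i => univ.filter fun j => h j i ≠ 0) := by
      intro j hj
      rw [Finset.mem_filter] at hj
      by_contra hcon
      apply hj.2
      have h2 : chk (h j) (tr (t s) x) = chk (h j) (tr (t s') y) := by
        unfold chk
        apply Finset.sum_congr rfl
        intro i _
        by_cases hi : (tr (t s) x) i = (tr (t s') y) i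
        · rw [hi]
        · by_cases hji : h j i = 0
          · rw [hji, zero_mul, zero_mul]
          · exfalso
            apply hcon
            rw [Finset.mem_biUnion]
            exact ⟨i, by simp [hi], by simp [hji]⟩
      rw [chk_tr, chk_tr, ht, ht, hpar x hx, hpar y hy] at h2
      have h3 : bit (s j) = bit (s' j) := add_right_cancel h2
      revert h3
      cases s j <;> cases s' j <;> simp [bit]
    have h2 : hammingDist s s' ≤ hammingDist (tr (t s) x) (tr (t s') y) * D := by
      refine (Finset.card_le_card hss).trans (Finset.card_biUnion_le.trans ?_)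
      refine (Finset.sum_le_sum fun i _ => hcol i).trans ?_
      rw [Finset.sum_const, smul_eq_mul]
      rfl
    have h3 : D * d ≤ D * hammingDist (tr (t s) x) (tr (t s') y) := by
      rw [mul_comm D (hammingDist _ _)]
      exact h1.trans h2
    exact Nat.le_of_mul_le_mul_left h3 hD
  -- the union
  set U : Finset (Fin n → Bool) := (S ×ˢ C).image fun p => tr (t p.1) p.2 with hU
  have hinj : Set.InjOn (fun p : (Fin r → Bool) × (Fin n → Bool) => tr (t p.1) p.2)
      (S ×ˢ C : Finset _) := by
    rintro ⟨s, x⟩ hp ⟨s', x'⟩ hp' heq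
    simp only at heq
    rw [Finset.mem_coe, Finset.mem_product] at hp hp'
    have hss : s = s' := by
      funext j
      have h2 : chk (h j) (tr (t s) x) = chk (h j) (tr (t s') x') := by rw [heq]
      rw [chk_tr, chk_tr, ht, ht, hpar x hp.2, hpar x' hp'.2] at h2
      have h3 : bit (s j) = bit (s' j) := add_right_cancel h2
      revert h3
      cases s j <;> cases s' j <;> simp [bit]
    subst hss
    rw [tr_inj (t s) heq]
  have hUcode : IsCode d U := by
    intro u hu v hv huv
    rw [hU, Finset.mem_image] at hu hv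
    obtain ⟨⟨s, x⟩, hp, rfl⟩ := hu
    obtain ⟨⟨s', x'⟩, hp', rfl⟩ := hv
    rw [Finset.mem_product] at hp hp'
    simp only at *
    by_cases hss : s = s'
    · subst hss
      rw [dist_tr]
      exact hcode x hp.2 x' hp'.2 (fun hxx => huv (by rw [hxx]))
    · exact key x hp.2 x' hp'.2 s hp.1 s' hp'.1 hss
  have h1 := card_le_A hUcode
  rw [hU, Finset.card_image_of_injOn hinj, Finset.card_product, hScard, mul_comm] at h1
  exact h1

end Pool.Agent.Helper89K9.GV
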