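import Pool.Agent.Helper89K9.GV.Equiv

/-!
The number of the words of a code near the received word, and the volume of balls.
-/

set_option autoImplicit false

namespace Pool.Agent.Helper89K9.GV

open Finset Filter
open Pool.Agent.Results.MP_0430e4_lc.ConstantWeightCriterion

variable {n : ℕ}

/-- the number of the words of `C` at distance at most `δ n` from `y` -/
noncomputable def near (δ : ℝ) (C : Finset (Fin n → Bool)) (y : Fin n → Bool) : ℕ :=
  (C.filter fun x => (hammingDist x y : ℝ) ≤ δ * n).card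

/-- the pairs of a word of `C` and a word at distance at most `δ n` from it -/
noncomputable def pairs (δ : ℝ) (C : Finset (Fin n → Bool)) : Finset ((Fin n → Bool) × (Fin n → Bool)) :=
  (C ×ˢ univ).filter fun p => (hammingDist p.1 p.2 : ℝ) ≤ δ * n

lemma kern_lower {δ : ℝ} (h0 : 0 < δ) (h1 : δ ≤ 1 / 2) {x y : Fin n → Bool}
    (h : (hammingDist x y : ℝ) ≤ δ * n) : (2 : ℝ) ^ (-(H δ * n)) ≤ kern δ x y := by
  rw [kern_eq]
  exact pow_lower h0 h1 (by
    have := hammingDist_le_card_fintype (x := x) (y := y)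
    simpa using this) h

lemma near_le {δ : ℝ} (h0 : 0 < δ) (h1 : δ ≤ 1 / 2) (C : Finset (Fin n → Bool))
    (y : Fin n → Bool) : (near δ C y : ℝ) * (2 : ℝ) ^ (-(H δ * n)) ≤ mix δ C y := by
  unfold near mix
  rw [← nsmul_eq_mul, ← Finset.sum_const]
  calc ∑ _x ∈ C.filter (fun x => (hammingDist x y : ℝ) ≤ δ * n), (2 : ℝ) ^ (-(H δ * n))
      ≤ ∑ x ∈ C.filter (fun x => (hammingDist x y : ℝ) ≤ δ * n), kern δ x y :=
        Finset.sum_le_sum fun x hx => kern_lower h0 h1 (Finset.mem_filter.1 hx).2
    _ ≤ ∑ x ∈ C, kern δ x y :=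
        Finset.sum_le_sum_of_subset_of_nonneg (Finset.filter_subset _ _)
          (fun x _ _ => kern_nonneg h0.le (by linarith) _ _)

/-- upper bound for the volume of the ball -/
lemma ball_le {δ : ℝ} (h0 : 0 < δ) (h1 : δ ≤ 1 / 2) (hn : 1 ≤ n) (x : Fin n → Bool) :
    ((univ.filter fun v : Fin n → Bool => (hammingDist x v : ℝ) ≤ δ * n).card : ℝ) ≤
      (2 : ℝ) ^ (H δ * n) := by
  have h := tail_lip h0 h1 hn (L := 1) one_pos (fun _ => 0)
    (by intro u i b; simp) x le_rfl
  have e : ex δ x (fun _ => (0 : ℝ)) = 0 := by unfold ex; simp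
  simp only [e, add_zero, le_refl, and_true] at h
  simpa using h

/-- **Few pairs have many words of the code near the received word.** -/
theorem bad_pairs {δ : ℝ} (h0 : 0 < δ) (h1 : δ < 1 / 2) (hn : 1 ≤ n)
    {C : Finset (Fin n → Bool)} (hC : C.Nonempty) (hcode : IsCode ⌈δ * n⌉₊ C) {a u : ℝ}
    (hu : bnd δ n + a ≤ u) :
    (((pairs δ C).filter fun p => (2 : ℝ) ^ u ≤ near δ C p.2).card : ℝ) ≤
      C.card * (2 : ℝ) ^ (H δ * n) * ((2 : ℝ) ^ (1 - a) +
        Real.exp (-(2 * ((u - bnd δ n - a) * Real.log 2) ^ 2 /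
          (n * Real.log ((1 - δ) / δ) ^ 2)))) := by
  classical
  have hlog : 0 < Real.log 2 := Real.log_pos (by norm_num)
  have hc : (0 : ℝ) < C.card := by exact_mod_cast hC.card_pos
  have hL : 0 < Real.log ((1 - δ) / δ) := by
    apply Real.log_pos
    rw [lt_div_iff₀ h0]
    linarith
  set e : ℝ := Real.exp (-(2 * ((u - bnd δ n - a) * Real.log 2) ^ 2 /
          (n * Real.log ((1 - δ) / δ) ^ 2))) with he
  -- the number of the pairs
  have e1 : ((pairs δ C).filter fun p => (2 : ℝ) ^ u ≤ near δ C p.2).card =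
      ∑ x ∈ C, (univ.filter fun y : Fin n → Bool => (hammingDist x y : ℝ) ≤ δ * n ∧
        (2 : ℝ) ^ u ≤ near δ C y).card := by
    unfold pairs
    rw [Finset.filter_filter, Finset.card_filter, Finset.sum_product]
    apply Finset.sum_congr rfl
    intro x _
    rw [Finset.card_filter]
  rw [e1]
  push_cast
  -- each word
  have h3 : ∀ x ∈ C, ((univ.filter fun y : Fin n → Bool => (hammingDist x y : ℝ) ≤ δ * n ∧
        (2 : ℝ) ^ u ≤ near δ C y).card : ℝ) ≤
      (if bnd δ n + a ≤ pe δ C x then (2 : ℝ) ^ (H δ * n) else 0) + (2 : ℝ) ^ (H δ * n) * e := by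
    intro x hx
    by_cases hb : bnd δ n + a ≤ pe δ C x
    · rw [if_pos hb]
      have h4 : ((univ.filter fun y : Fin n → Bool => (hammingDist x y : ℝ) ≤ δ * n ∧
        (2 : ℝ) ^ u ≤ near δ C y).card : ℝ) ≤
          ((univ.filter fun v : Fin n → Bool => (hammingDist x v : ℝ) ≤ δ * n).card : ℝ) := by
        norm_cast
        apply Finset.card_le_card
        intro y hy
        rw [Finset.mem_filter] at hy ⊢
        exact ⟨hy.1, hy.2.1⟩
      have h5 := ball_le h0 h1.le hn x
      have h6 : 0 ≤ (2 : ℝ) ^ (H δ * n) * e := by positivity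
      linarith
    · rw [if_neg hb, zero_add]
      push Not at hb
      have h4 := tail_lip' h0 h1.le hn hL (fC δ C) (lip_fC h0 h1.le hC) x
        (t := (u - bnd δ n - a) * Real.log 2) (mul_nonneg (by linarith) hlog.le)
      refine le_trans ?_ h4
      norm_cast
      apply Finset.card_le_card
      intro y hy
      rw [Finset.mem_filter] at hy ⊢
      refine ⟨hy.1, hy.2.1, ?_⟩
      have h7 := near_le h0 h1.le C y
      have h8 : (2 : ℝ) ^ u * (2 : ℝ) ^ (-(H δ * n)) ≤ mix δ C y :=
        (mul_le_mul_of_nonneg_right hy.2.2 (by positivity)).trans h7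
      rw [← Real.rpow_add (by norm_num)] at h8
      have h9 := Real.log_le_log (by positivity) h8
      rw [Real.log_rpow (by norm_num)] at h9
      have p1 := mix_pos h0 (by linarith : δ < 1) hC y
      rw [pe_eq h0 (by linarith) hC] at hb
      have h10 : (Real.logb 2 C.card + n * H δ - (bnd δ n + a)) * Real.log 2 < ex δ x (fC δ C) := by
        rw [← lt_div_iff₀ hlog]
        linarith
      have h11 : Real.logb 2 (C.card : ℝ) * Real.log 2 = Real.log C.card := by
        unfold Real.logb
        rw [div_mul_cancel₀ _ hlog.ne']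
      unfold fC at h10 ⊢
      rw [Real.log_div p1.ne' hc.ne']
      nlinarith
  refine (Finset.sum_le_sum h3).trans ?_
  rw [Finset.sum_add_distrib, Finset.sum_const, nsmul_eq_mul, ← Finset.sum_filter,
    Finset.sum_const, nsmul_eq_mul]
  have h4 := mul_le_mul_of_nonneg_right (tail_pe h0 h1 hn hC hcode a)
    (by positivity : 0 ≤ (2 : ℝ) ^ (H δ * n))
  nlinarith

/-- words near few words of the code are in few pairs -/
lemma good_pairs {δ : ℝ} (C : Finset (Fin n → Bool)) (u : ℝ) :
    (((pairs δ C).filter fun p => (near δ C p.2 : ℝ) < (2 : ℝ) ^ u).card : ℝ) ≤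
      2 ^ n * (2 : ℝ) ^ u := by
  classical
  have e1 : ((pairs δ C).filter fun p => (near δ C p.2 : ℝ) < (2 : ℝ) ^ u).card =
      ∑ y : Fin n → Bool, (C.filter fun x => (hammingDist x y : ℝ) ≤ δ * n ∧
        (near δ C y : ℝ) < (2 : ℝ) ^ u).card := by
    unfold pairs
    rw [Finset.filter_filter, Finset.card_filter, Finset.sum_product_right]
    apply Finset.sum_congr rfl
    intro x _
    rw [Finset.card_filter]
  rw [e1]
  push_cast
  have h2 : ∀ y : Fin n → Bool, ((C.filter fun x => (hammingDist x y : ℝ) ≤ δ * n ∧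
        (near δ C y : ℝ) < (2 : ℝ) ^ u).card : ℝ) ≤ (2 : ℝ) ^ u := by
    intro y
    by_cases h : (near δ C y : ℝ) < (2 : ℝ) ^ u
    · refine le_trans ?_ h.le
      unfold near
      norm_cast
      apply Finset.card_le_card
      intro x hx
      rw [Finset.mem_filter] at hx ⊢
      exact ⟨hx.1, hx.2.1⟩
    · rw [Finset.filter_false_of_mem (by
        intro x _ hx
        exact h hx.2)]
      simp
      positivity
  refine (Finset.sum_le_sum fun y _ => h2 y).trans ?_
  rw [Finset.sum_const, nsmul_eq_mul, Finset.card_univ]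
  simp

lemma lip_log_kern {δ : ℝ} (h0 : 0 < δ) (h1 : δ ≤ 1 / 2) (x : Fin n → Bool) :
    Lip (Real.log ((1 - δ) / δ)) (fun y => Real.log (kern δ x y)) := by
  have h := (lip_fC h0 h1 (C := {x}) ⟨x, Finset.mem_singleton_self x⟩).neg
  intro u i b
  have h2 := h u i b
  unfold fC mix at h2
  simpa using h2

lemma tail_prob {δ : ℝ} (h0 : 0 < δ) (h1 : δ ≤ 1 / 2) (hn : 1 ≤ n) {L : ℝ} (hL : 0 < L)
    (f : (Fin n → Bool) → ℝ) (hf : Lip L f) (x : Fin n → Bool) {t : ℝ} (ht : 0 ≤ t) :
    ∑ y ∈ univ.filter (fun y => ex δ x f + t ≤ f y), kern δ x y ≤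
      Real.exp (-(2 * t ^ 2 / (n * L ^ 2))) := by
  classical
  have hn0 : (0 : ℝ) < n := by exact_mod_cast hn
  set θ : ℝ := 4 * t / (n * L ^ 2) with hθdef
  have hθ0 : 0 ≤ θ := by rw [hθdef]; positivity
  have h2 := mgf_lip h0.le (by linarith : δ ≤ 1) θ n f hf x
  have h3 : (∑ y ∈ univ.filter (fun y => ex δ x f + t ≤ f y), kern δ x y) *
      Real.exp (θ * (ex δ x f + t)) ≤ Real.exp (θ * ex δ x f + θ ^ 2 * L ^ 2 / 8 * n) := by
    refine le_trans ?_ h2
    rw [Finset.sum_mul]
    calc ∑ y ∈ univ.filter (fun y => ex δ x f + t ≤ f y),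
          kern δ x y * Real.exp (θ * (ex δ x f + t))
        ≤ ∑ y ∈ univ.filter (fun y => ex δ x f + t ≤ f y), kern δ x y * Real.exp (θ * f y) := by
          apply Finset.sum_le_sum
          intro v hv
          rw [Finset.mem_filter] at hv
          apply mul_le_mul_of_nonneg_left _ (kern_nonneg h0.le (by linarith) _ _)
          exact Real.exp_le_exp.2 (mul_le_mul_of_nonneg_left hv.2 hθ0)
      _ ≤ ∑ y, kern δ x y * Real.exp (θ * f y) := by
          apply Finset.sum_le_sum_of_subset_of_nonneg (Finset.subset_univ _)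
          intro v _ _
          exact mul_nonneg (kern_nonneg h0.le (by linarith) _ _) (Real.exp_pos _).le
  have h4 : Real.exp (θ * ex δ x f + θ ^ 2 * L ^ 2 / 8 * n) =
      Real.exp (-(2 * t ^ 2 / (n * L ^ 2))) * Real.exp (θ * (ex δ x f + t)) := by
    rw [← Real.exp_add]
    congr 1
    rw [hθdef]
    field_simp
    ring
  rw [h4] at h3
  exact le_of_mul_le_mul_right h3 (Real.exp_pos _)

/-- lower bound for the volume of the ball -/
lemma ball_ge {δ δ' : ℝ} (h0 : 0 < δ') (hδ : δ' < δ) (h1 : δ < 1 / 2) (hn : 1 ≤ n)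
    (x : Fin n → Bool) (hlarge : 2 * Real.exp (-(2 * (δ - δ') ^ 2 * n)) ≤ 1 / 2) :
    (2 : ℝ) ^ (H δ' * n) * Real.exp (-((δ - δ') * Real.log ((1 - δ') / δ') * n)) ≤
      2 * ((univ.filter fun v : Fin n → Bool => (hammingDist x v : ℝ) ≤ δ * n).card : ℝ) := by
  classical
  have hn0 : (0 : ℝ) < n := by exact_mod_cast hn
  have hL : 0 < Real.log ((1 - δ') / δ') := by
    apply Real.log_pos
    rw [lt_div_iff₀ h0]
    linarith
  set L : ℝ := Real.log ((1 - δ') / δ') with hLdef
  set t : ℝ := (δ - δ') * L * n with ht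
  have ht0 : 0 ≤ t := by
    rw [ht]
    have : 0 < δ - δ' := by linarith
    positivity
  have htt : 2 * t ^ 2 / (n * L ^ 2) = 2 * (δ - δ') ^ 2 * n := by
    rw [ht]
    field_simp
  set F : (Fin n → Bool) → ℝ := fun y => Real.log (kern δ' x y) with hF
  have hlip : Lip L F := lip_log_kern h0 (by linarith) x
  have hE : ex δ' x F = -(n * Real.binEntropy δ') := ent_kern h0 (by linarith) n x
  have h2 := tail_prob h0 (by linarith : δ' ≤ 1 / 2) hn hL F hlip x ht0
  have h3 := tail_prob h0 (by linarith : δ' ≤ 1 / 2) hn hL _ hlip.neg x ht0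
  have hEn : ex δ' x (fun u => -F u) = n * Real.binEntropy δ' := by
    have : ex δ' x (fun u => -F u) = -ex δ' x F := by
      unfold ex
      rw [← Finset.sum_neg_distrib]
      exact Finset.sum_congr rfl fun u _ => by ring
    rw [this, hE]
    ring
  rw [htt, hE] at h2
  rw [htt, hEn] at h3
  -- the typical words
  set S := univ.filter (fun y : Fin n → Bool => F y < -(n * Real.binEntropy δ') + t ∧
    -F y < n * Real.binEntropy δ' + t) with hS
  have h4 : 1 ≤ (∑ y ∈ S, kern δ' x y) + 2 * Real.exp (-(2 * (δ - δ') ^ 2 * n)) := by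
    calc (1 : ℝ) = ∑ y, kern δ' x y := (sum_kern δ' x).symm
      _ ≤ ∑ y ∈ S, kern δ' x y +
          (∑ y ∈ univ.filter (fun y => -(n * Real.binEntropy δ') + t ≤ F y), kern δ' x y +
          ∑ y ∈ univ.filter (fun y => n * Real.binEntropy δ' + t ≤ -F y), kern δ' x y) := by
          rw [hS, Finset.sum_filter, Finset.sum_filter, Finset.sum_filter,
            ← Finset.sum_add_distrib, ← Finset.sum_add_distrib]
          apply Finset.sum_le_sum
          intro y _
          have hk := kern_nonneg (x := x) (u := y) h0.le (by linarith : δ' ≤ 1)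
          by_cases a1 : F y < -(n * Real.binEntropy δ') + t
          · by_cases a2 : -F y < n * Real.binEntropy δ' + t
            · rw [if_pos ⟨a1, a2⟩, if_neg (not_le.2 a1), if_neg (not_le.2 a2)]
              linarith
            · rw [if_neg (fun h => a2 h.2), if_neg (not_le.2 a1), if_pos (not_lt.1 a2)]
              linarith
          · rw [if_neg (fun h => a1 h.1), if_pos (not_lt.1 a1)]
            split_ifs <;> linarith
      _ ≤ _ := by linarith
  have h5 : ∀ y ∈ S, kern δ' x y ≤ Real.exp (-(n * Real.binEntropy δ') + t) := by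
    intro y hy
    rw [hS, Finset.mem_filter] at hy
    have h6 := hy.2.1
    have h7 : Real.exp (F y) = kern δ' x y := by
      rw [hF]
      exact Real.exp_log (kern_pos h0 (by linarith) _ _)
    rw [← h7]
    exact (Real.exp_lt_exp.2 h6).le
  have h6 : S ⊆ univ.filter fun v : Fin n → Bool => (hammingDist x v : ℝ) ≤ δ * n := by
    intro y hy
    rw [hS, Finset.mem_filter] at hy
    rw [Finset.mem_filter]
    refine ⟨Finset.mem_univ _, ?_⟩
    have h7 := hy.2.2
    have hle : hammingDist x y ≤ n := by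
      have := hammingDist_le_card_fintype (x := x) (y := y)
      simpa using this
    have e1 : F y = hammingDist x y * Real.log δ' +
        ((n : ℝ) - hammingDist x y) * Real.log (1 - δ') := by
      rw [hF]
      simp only
      rw [kern_eq, Real.log_mul (by positivity) (by
        have : (0 : ℝ) < 1 - δ' := by linarith
        positivity), Real.log_pow, Real.log_pow, Nat.cast_sub hle]
    have e2 : Real.binEntropy δ' = -(δ' * Real.log δ') - (1 - δ') * Real.log (1 - δ') := by
      unfold Real.binEntropy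
      rw [Real.log_inv, Real.log_inv]
      ring
    have e3 : L = Real.log (1 - δ') - Real.log δ' := by
      rw [hLdef, Real.log_div (by linarith) h0.ne']
    have h8 : L * (hammingDist x y : ℝ) ≤ L * (δ * n) := by
      have : L * (hammingDist x y : ℝ) = -F y + n * Real.log (1 - δ') := by
        rw [e1, e3]; ring
      rw [this]
      have : L * (δ * n) = n * Real.binEntropy δ' + t + n * Real.log (1 - δ') := by
        rw [ht, e2, e3]; ring
      rw [this]
      linarith
    exact le_of_mul_le_mul_left h8 hL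
  have h7 : (∑ y ∈ S, kern δ' x y) ≤
      ((univ.filter fun v : Fin n → Bool => (hammingDist x v : ℝ) ≤ δ * n).card : ℝ) *
        Real.exp (-(n * Real.binEntropy δ') + t) := by
    calc (∑ y ∈ S, kern δ' x y) ≤ ∑ _y ∈ S, Real.exp (-(n * Real.binEntropy δ') + t) :=
          Finset.sum_le_sum h5
      _ = (S.card : ℝ) * Real.exp (-(n * Real.binEntropy δ') + t) := by
          rw [Finset.sum_const, nsmul_eq_mul]
      _ ≤ _ := by
          apply mul_le_mul_of_nonneg_right _ (Real.exp_pos _).le
          exact_mod_cast Finset.card_le_card h6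
  have h8 : (1 : ℝ) / 2 ≤
      ((univ.filter fun v : Fin n → Bool => (hammingDist x v : ℝ) ≤ δ * n).card : ℝ) *
        Real.exp (-(n * Real.binEntropy δ') + t) := by linarith
  have e4 : (2 : ℝ) ^ (H δ' * n) * Real.exp (-t) *
      Real.exp (-(n * Real.binEntropy δ') + t) = 1 := by
    rw [two_rpow, ← Real.exp_add, ← Real.exp_add, ← H_eq]
    rw [show Real.log 2 * (H δ' * n) + -t + (-(n * (H δ' * Real.log 2)) + t) = 0 by ring,
      Real.exp_zero]
  have h9 : (2 : ℝ) ^ (H δ' * n) * Real.exp (-t) * Real.exp (-(n * Real.binEntropy δ') + t) ≤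
      2 * ((univ.filter fun v : Fin n → Bool => (hammingDist x v : ℝ) ≤ δ * n).card : ℝ) *
        Real.exp (-(n * Real.binEntropy δ') + t) := by
    rw [e4]
    linarith
  exact le_of_mul_le_mul_right h9 (Real.exp_pos _)

end Pool.Agent.Helper89K9.GV
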