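import Pool.Agent.Results.MP_0430e4_lc.ConstantWeightCriterion

/-!
The binary symmetric channel: concentration of functions of the received word.
-/

set_option autoImplicit false

namespace Pool.Agent.Helper89K9.GV

open Finset Filter
open Pool.Agent.Results.MP_0430e4_lc.ConstantWeightCriterion

/-- the probability that the binary symmetric channel with crossover probability `δ` changes `a`
into `b` -/
noncomputable def nz (δ : ℝ) (a b : Bool) : ℝ := if a ≠ b then δ else 1 - δ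

/-- the probability that the channel changes the word `x` into the word `u` -/
noncomputable def kern {n : ℕ} (δ : ℝ) (x u : Fin n → Bool) : ℝ := ∏ i, nz δ (x i) (u i)

lemma nz_nonneg {δ : ℝ} (h0 : 0 ≤ δ) (h1 : δ ≤ 1) (a b : Bool) : 0 ≤ nz δ a b := by
  unfold nz; split_ifs <;> linarith

lemma nz_pos {δ : ℝ} (h0 : 0 < δ) (h1 : δ < 1) (a b : Bool) : 0 < nz δ a b := by
  unfold nz; split_ifs <;> linarith

lemma kern_nonneg {n : ℕ} {δ : ℝ} (h0 : 0 ≤ δ) (h1 : δ ≤ 1) (x u : Fin n → Bool) :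
    0 ≤ kern δ x u := Finset.prod_nonneg fun _ _ => nz_nonneg h0 h1 _ _

lemma kern_pos {n : ℕ} {δ : ℝ} (h0 : 0 < δ) (h1 : δ < 1) (x u : Fin n → Bool) :
    0 < kern δ x u := Finset.prod_pos fun _ _ => nz_pos h0 h1 _ _

lemma sum_nz (δ : ℝ) (a : Bool) : ∑ b : Bool, nz δ a b = 1 := by
  cases a <;> simp [nz]

lemma kern_eq {n : ℕ} (δ : ℝ) (x v : Fin n → Bool) :
    kern δ x v = δ ^ hammingDist x v * (1 - δ) ^ (n - hammingDist x v) := by
  unfold kern nz
  rw [prod_ite_eq (fun i => x i ≠ v i)]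
  rfl

lemma kern_comm {n : ℕ} (δ : ℝ) (x v : Fin n → Bool) : kern δ x v = kern δ v x := by
  rw [kern_eq, kern_eq, hammingDist_comm]

lemma sum_cons {n : ℕ} (g : (Fin (n + 1) → Bool) → ℝ) :
    ∑ y, g y = ∑ b : Bool, ∑ u : Fin n → Bool, g (Fin.cons b u) := by
  rw [← Fintype.sum_prod_type']
  exact (Fintype.sum_equiv (Fin.consEquiv (fun _ => Bool)) _ _ (fun p => rfl)).symm

lemma kern_cons {n : ℕ} (δ : ℝ) (x : Fin (n + 1) → Bool) (b : Bool) (u : Fin n → Bool) :
    kern δ x (Fin.cons b u) = nz δ (x 0) b * kern δ (Fin.tail x) u := by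
  unfold kern
  rw [Fin.prod_univ_succ]
  simp [Fin.tail]

lemma sum_kern {n : ℕ} (δ : ℝ) (x : Fin n → Bool) : ∑ u, kern δ x u = 1 := by
  unfold kern
  have h := Finset.prod_univ_sum (fun _ : Fin n => (univ : Finset Bool)) (fun i b => nz δ (x i) b)
  rw [Fintype.piFinset_univ] at h
  rw [← h]
  exact Finset.prod_eq_one fun i _ => sum_nz δ (x i)

/-- expectation over the received word -/
noncomputable def ex {n : ℕ} (δ : ℝ) (x : Fin n → Bool) (f : (Fin n → Bool) → ℝ) : ℝ :=
  ∑ u, kern δ x u * f u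

/-- changing one coordinate changes `f` by at most `L` -/
def Lip {n : ℕ} (L : ℝ) (f : (Fin n → Bool) → ℝ) : Prop :=
  ∀ (u : Fin n → Bool) (i : Fin n) (b : Bool), |f (Function.update u i b) - f u| ≤ L

open MeasureTheory ProbabilityTheory in
lemma two_point {p q a b θ L : ℝ} (hp : 0 ≤ p) (hq : 0 ≤ q) (hpq : p + q = 1) (hab : |a - b| ≤ L) :
    p * Real.exp (θ * a) + q * Real.exp (θ * b) ≤
      Real.exp (θ * (p * a + q * b) + θ ^ 2 * L ^ 2 / 8) := by
  set μ : Measure Bool := ENNReal.ofReal p • Measure.dirac true +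
    ENNReal.ofReal q • Measure.dirac false with hμ
  have hprob : IsProbabilityMeasure μ := ⟨by
    rw [hμ]
    simp [← ENNReal.ofReal_add hp hq, hpq]⟩
  have i1 : IsFiniteMeasure (ENNReal.ofReal p • (Measure.dirac true : Measure Bool)) :=
    Measure.smul_finite _ ENNReal.ofReal_ne_top
  have i2 : IsFiniteMeasure (ENNReal.ofReal q • (Measure.dirac false : Measure Bool)) :=
    Measure.smul_finite _ ENNReal.ofReal_ne_top
  have hint : ∀ f : Bool → ℝ, ∫ c, f c ∂μ = p * f true + q * f false := by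
    intro f
    rw [hμ, integral_add_measure (Integrable.of_finite) (Integrable.of_finite),
      integral_smul_measure, integral_smul_measure, integral_dirac, integral_dirac,
      ENNReal.toReal_ofReal hp, ENNReal.toReal_ofReal hq]
    rfl
  set X : Bool → ℝ := fun c => if c then a else b with hX
  have h := hasSubgaussianMGF_of_mem_Icc (μ := μ) (X := X) (a := min a b) (b := max a b)
    (measurable_of_countable X).aemeasurable (Filter.Eventually.of_forall (by
      intro c
      cases c <;> simp [hX]))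
  have h2 := h.mgf_le θ
  unfold ProbabilityTheory.mgf at h2
  rw [hint, hint] at h2
  simp only [hX, if_true, Bool.false_eq_true, if_false] at h2
  have h3 : ((((‖max a b - min a b‖₊ / 2) ^ 2 : NNReal) : ℝ) * θ ^ 2 / 2) ≤ θ ^ 2 * L ^ 2 / 8 := by
    push_cast
    have e : |max a b - min a b| = |a - b| := by
      rw [max_sub_min_eq_abs]
      rw [abs_abs, abs_sub_comm]
    rw [Real.norm_eq_abs, e]
    have h4 : |a - b| ^ 2 ≤ L ^ 2 := pow_le_pow_left₀ (abs_nonneg _) hab 2
    nlinarith [mul_le_mul_of_nonneg_right h4 (sq_nonneg θ)]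
  have h5 := h2.trans (Real.exp_le_exp.2 h3)
  have h6 := mul_le_mul_of_nonneg_right h5 (Real.exp_pos (θ * (p * a + q * b))).le
  have e1 : Real.exp (θ * (a - (p * a + q * b))) * Real.exp (θ * (p * a + q * b)) =
      Real.exp (θ * a) := by
    rw [← Real.exp_add]; congr 1; ring
  have e2 : Real.exp (θ * (b - (p * a + q * b))) * Real.exp (θ * (p * a + q * b)) =
      Real.exp (θ * b) := by
    rw [← Real.exp_add]; congr 1; ring
  calc p * Real.exp (θ * a) + q * Real.exp (θ * b)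
      = (p * Real.exp (θ * (a - (p * a + q * b))) + q * Real.exp (θ * (b - (p * a + q * b)))) *
        Real.exp (θ * (p * a + q * b)) := by
        rw [add_mul, mul_assoc, mul_assoc, e1, e2]
    _ ≤ _ := h6
    _ = _ := by rw [← Real.exp_add, add_comm]

lemma cons_update0 {n : ℕ} (b c : Bool) (u : Fin n → Bool) :
    (Fin.cons c u : Fin (n + 1) → Bool) = Function.update (Fin.cons b u) 0 c := by
  rw [Fin.update_cons_zero]

/-- **The inequality of McDiarmid** for the received word. -/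
lemma mgf_lip {δ : ℝ} (h0 : 0 ≤ δ) (h1 : δ ≤ 1) {L : ℝ} (θ : ℝ) :
    ∀ (n : ℕ) (f : (Fin n → Bool) → ℝ), Lip L f → ∀ x : Fin n → Bool,
      ex δ x (fun u => Real.exp (θ * f u)) ≤
        Real.exp (θ * ex δ x f + θ ^ 2 * L ^ 2 / 8 * n) := by
  intro n
  induction n with
  | zero =>
    intro f _ x
    unfold ex kern
    simp
  | succ n ih =>
    intro f hf x
    have hF : ∀ b : Bool, Lip L (fun u : Fin n → Bool => f (Fin.cons b u)) := by
      intro b u i c
      have := hf (Fin.cons b u) i.succ c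
      rw [← Fin.cons_update] at this
      exact this
    set F : Bool → ℝ := fun b => ex δ (Fin.tail x) (fun u => f (Fin.cons b u)) with hFdef
    have e1 : ∀ g : (Fin (n + 1) → Bool) → ℝ, ex δ x g =
        nz δ (x 0) true * ex δ (Fin.tail x) (fun u => g (Fin.cons true u)) +
        nz δ (x 0) false * ex δ (Fin.tail x) (fun u => g (Fin.cons false u)) := by
      intro g
      unfold ex
      rw [sum_cons, Fintype.sum_bool, Finset.mul_sum, Finset.mul_sum]
      congr 1 <;>
      · apply Finset.sum_congr rfl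
        intro u _
        rw [kern_cons]
        ring
    have hdiff : |F true - F false| ≤ L := by
      have e2 : F true - F false = ∑ u, kern δ (Fin.tail x) u *
          (f (Fin.cons true u) - f (Fin.cons false u)) := by
        rw [hFdef]
        unfold ex
        rw [← Finset.sum_sub_distrib]
        exact Finset.sum_congr rfl fun u _ => by ring
      rw [e2]
      calc |∑ u, kern δ (Fin.tail x) u * (f (Fin.cons true u) - f (Fin.cons false u))|
          ≤ ∑ u, |kern δ (Fin.tail x) u * (f (Fin.cons true u) - f (Fin.cons false u))| :=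
            Finset.abs_sum_le_sum_abs _ _
        _ ≤ ∑ u, kern δ (Fin.tail x) u * L := by
            apply Finset.sum_le_sum
            intro u _
            rw [abs_mul, abs_of_nonneg (kern_nonneg h0 h1 _ _)]
            apply mul_le_mul_of_nonneg_left _ (kern_nonneg h0 h1 _ _)
            rw [cons_update0 false true u]
            exact hf _ 0 true
        _ = L := by rw [← Finset.sum_mul, sum_kern, one_mul]
    rw [e1, e1 f]
    have h2 : ∀ b : Bool, ex δ (Fin.tail x) (fun u => Real.exp (θ * f (Fin.cons b u))) ≤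
        Real.exp (θ * F b) * Real.exp (θ ^ 2 * L ^ 2 / 8 * n) := by
      intro b
      rw [← Real.exp_add]
      exact ih (fun u => f (Fin.cons b u)) (hF b) (Fin.tail x)
    have h3 := two_point (θ := θ) (nz_nonneg h0 h1 (x 0) true) (nz_nonneg h0 h1 (x 0) false)
      (by have := sum_nz δ (x 0); rwa [Fintype.sum_bool] at this) hdiff
    calc nz δ (x 0) true * ex δ (Fin.tail x) (fun u => Real.exp (θ * f (Fin.cons true u))) +
        nz δ (x 0) false * ex δ (Fin.tail x) (fun u => Real.exp (θ * f (Fin.cons false u)))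
        ≤ nz δ (x 0) true * (Real.exp (θ * F true) * Real.exp (θ ^ 2 * L ^ 2 / 8 * n)) +
          nz δ (x 0) false * (Real.exp (θ * F false) * Real.exp (θ ^ 2 * L ^ 2 / 8 * n)) :=
          add_le_add (mul_le_mul_of_nonneg_left (h2 true) (nz_nonneg h0 h1 _ _))
            (mul_le_mul_of_nonneg_left (h2 false) (nz_nonneg h0 h1 _ _))
      _ = (nz δ (x 0) true * Real.exp (θ * F true) + nz δ (x 0) false * Real.exp (θ * F false)) *
          Real.exp (θ ^ 2 * L ^ 2 / 8 * n) := by ring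
      _ ≤ Real.exp (θ * (nz δ (x 0) true * F true + nz δ (x 0) false * F false) +
          θ ^ 2 * L ^ 2 / 8) * Real.exp (θ ^ 2 * L ^ 2 / 8 * n) :=
          mul_le_mul_of_nonneg_right h3 (Real.exp_pos _).le
      _ = _ := by
          rw [← Real.exp_add]
          congr 1
          push_cast
          ring

/-- in the ball with radius `δ n` around `x` few words have a value much larger than expected -/
lemma tail_lip {δ : ℝ} (hδ0 : 0 < δ) (hδ : δ ≤ 1 / 2) {n : ℕ} (hn : 1 ≤ n) {L : ℝ} (hL : 0 < L)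
    (f : (Fin n → Bool) → ℝ) (hf : Lip L f) (x : Fin n → Bool) {t : ℝ} (ht : 0 ≤ t) :
    ((univ.filter fun v : Fin n → Bool => (hammingDist x v : ℝ) ≤ δ * n ∧
      ex δ x f + t ≤ f v).card : ℝ) ≤
      (2 : ℝ) ^ (H δ * n) * Real.exp (-(2 * t ^ 2 / (n * L ^ 2))) := by
  classical
  have hn0 : (0 : ℝ) < n := by exact_mod_cast hn
  set θ : ℝ := 4 * t / (n * L ^ 2) with hθdef
  have hθ0 : 0 ≤ θ := by rw [hθdef]; positivity
  have h1 := mgf_lip hδ0.le (by linarith : δ ≤ 1) θ n f hf x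
  have h3 : ((univ.filter fun v : Fin n → Bool => (hammingDist x v : ℝ) ≤ δ * n ∧
      ex δ x f + t ≤ f v).card : ℝ) * ((2 : ℝ) ^ (-(H δ * n)) * Real.exp (θ * (ex δ x f + t))) ≤
      Real.exp (θ * ex δ x f + θ ^ 2 * L ^ 2 / 8 * n) := by
    refine le_trans ?_ h1
    rw [← nsmul_eq_mul, ← Finset.sum_const]
    calc ∑ _v ∈ univ.filter (fun v : Fin n → Bool => (hammingDist x v : ℝ) ≤ δ * n ∧
          ex δ x f + t ≤ f v), (2 : ℝ) ^ (-(H δ * n)) * Real.exp (θ * (ex δ x f + t))
        ≤ ∑ v ∈ univ.filter (fun v : Fin n → Bool => (hammingDist x v : ℝ) ≤ δ * n ∧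
          ex δ x f + t ≤ f v), kern δ x v * Real.exp (θ * f v) := by
          apply Finset.sum_le_sum
          intro v hv
          rw [Finset.mem_filter] at hv
          have g1 : (2 : ℝ) ^ (-(H δ * n)) ≤ kern δ x v := by
            rw [kern_eq]
            exact pow_lower hδ0 hδ (by
              have := hammingDist_le_card_fintype (x := x) (y := v)
              simpa using this) hv.2.1
          have g2 : Real.exp (θ * (ex δ x f + t)) ≤ Real.exp (θ * f v) := by
            apply Real.exp_le_exp.2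
            exact mul_le_mul_of_nonneg_left hv.2.2 hθ0
          exact mul_le_mul g1 g2 (Real.exp_pos _).le (kern_nonneg hδ0.le (by linarith) _ _)
      _ ≤ ∑ v : Fin n → Bool, kern δ x v * Real.exp (θ * f v) := by
          apply Finset.sum_le_sum_of_subset_of_nonneg (Finset.subset_univ _)
          intro v _ _
          exact mul_nonneg (kern_nonneg hδ0.le (by linarith) _ _) (Real.exp_pos _).le
  have h4 : (2 : ℝ) ^ (-(H δ * n)) * Real.exp (θ * (ex δ x f + t)) *
      ((2 : ℝ) ^ (H δ * n) * Real.exp (-(2 * t ^ 2 / (n * L ^ 2)))) =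
      Real.exp (θ * ex δ x f + θ ^ 2 * L ^ 2 / 8 * n) := by
    have e1 : (2 : ℝ) ^ (-(H δ * n)) * (2 : ℝ) ^ (H δ * n) = 1 := by
      rw [← Real.rpow_add (by norm_num)]
      simp
    calc (2 : ℝ) ^ (-(H δ * n)) * Real.exp (θ * (ex δ x f + t)) *
      ((2 : ℝ) ^ (H δ * n) * Real.exp (-(2 * t ^ 2 / (n * L ^ 2))))
        = ((2 : ℝ) ^ (-(H δ * n)) * (2 : ℝ) ^ (H δ * n)) * (Real.exp (θ * (ex δ x f + t)) *
          Real.exp (-(2 * t ^ 2 / (n * L ^ 2)))) := by ring
      _ = Real.exp (θ * (ex δ x f + t) + -(2 * t ^ 2 / (n * L ^ 2))) := by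
          rw [e1, one_mul, Real.exp_add]
      _ = _ := by
          congr 1
          rw [hθdef]
          field_simp
          ring
  rw [← h4] at h3
  have h5 : 0 < (2 : ℝ) ^ (-(H δ * n)) * Real.exp (θ * (ex δ x f + t)) := by positivity
  rw [mul_comm] at h3
  exact le_of_mul_le_mul_left h3 h5

lemma Lip.neg {n : ℕ} {L : ℝ} {f : (Fin n → Bool) → ℝ} (h : Lip L f) : Lip L (fun u => -f u) := by
  intro u i b
  have := h u i b
  rw [abs_le] at this ⊢
  constructor <;> linarith [this.1, this.2]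

/-- in the ball with radius `δ n` around `x` few words have a value much smaller than expected -/
lemma tail_lip' {δ : ℝ} (hδ0 : 0 < δ) (hδ : δ ≤ 1 / 2) {n : ℕ} (hn : 1 ≤ n) {L : ℝ} (hL : 0 < L)
    (f : (Fin n → Bool) → ℝ) (hf : Lip L f) (x : Fin n → Bool) {t : ℝ} (ht : 0 ≤ t) :
    ((univ.filter fun v : Fin n → Bool => (hammingDist x v : ℝ) ≤ δ * n ∧
      f v ≤ ex δ x f - t).card : ℝ) ≤
      (2 : ℝ) ^ (H δ * n) * Real.exp (-(2 * t ^ 2 / (n * L ^ 2))) := by
  have h := tail_lip hδ0 hδ hn hL _ hf.neg x ht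
  have e : ex δ x (fun u => -f u) = -ex δ x f := by
    unfold ex
    rw [← Finset.sum_neg_distrib]
    exact Finset.sum_congr rfl fun u _ => by ring
  rw [e] at h
  refine le_trans (le_of_eq ?_) h
  congr 2
  apply Finset.filter_congr
  intro v _
  constructor
  · rintro ⟨a1, a2⟩
    exact ⟨a1, by linarith⟩
  · rintro ⟨a1, a2⟩
    exact ⟨a1, by linarith⟩

/-- few words have a small value -/
lemma count_small {n : ℕ} (f : (Fin n → Bool) → ℝ) (hf : ∑ u, Real.exp (-(f u)) ≤ 1) (τ : ℝ) :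
    ((univ.filter fun v : Fin n → Bool => f v ≤ τ).card : ℝ) ≤ Real.exp τ := by
  classical
  have h2 : ((univ.filter fun v : Fin n → Bool => f v ≤ τ).card : ℝ) * Real.exp (-τ) ≤ 1 := by
    rw [← nsmul_eq_mul, ← Finset.sum_const]
    calc ∑ _v ∈ univ.filter (fun v : Fin n → Bool => f v ≤ τ), Real.exp (-τ)
        ≤ ∑ v ∈ univ.filter (fun v : Fin n → Bool => f v ≤ τ), Real.exp (-(f v)) := by
          apply Finset.sum_le_sum
          intro v hv
          rw [Finset.mem_filter] at hv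
          exact Real.exp_le_exp.2 (by linarith [hv.2])
      _ ≤ ∑ v : Fin n → Bool, Real.exp (-(f v)) :=
          Finset.sum_le_sum_of_subset_of_nonneg (Finset.subset_univ _)
            (fun v _ _ => (Real.exp_pos _).le)
      _ ≤ 1 := hf
  rw [Real.exp_neg, ← div_eq_mul_inv, div_le_one (Real.exp_pos _)] at h2
  exact h2

/-- the size of the neighbourhood of a code -/
lemma nbhd_lip {δ : ℝ} (hδ0 : 0 < δ) (hδ : δ ≤ 1 / 2) {n : ℕ} (hn : 1 ≤ n) {L : ℝ} (hL : 0 < L)
    (f : (Fin n → Bool) → ℝ) (hf : Lip L f) (hs : ∑ u, Real.exp (-(f u)) ≤ 1) {T t : ℝ}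
    (ht : 0 ≤ t) (I : Finset (Fin n → Bool)) (hI : ∀ x ∈ I, ex δ x f ≤ T) :
    ((nbhd ⌈δ * n⌉₊ I).card : ℝ) ≤ Real.exp (T + t) +
      I.card * ((2 : ℝ) ^ (H δ * n) * Real.exp (-(2 * t ^ 2 / (n * L ^ 2)))) := by
  classical
  have hsub : nbhd ⌈δ * n⌉₊ I ⊆ (univ.filter fun v : Fin n → Bool => f v ≤ T + t) ∪
      I.biUnion (fun x => univ.filter fun v : Fin n → Bool => (hammingDist x v : ℝ) ≤ δ * n ∧
        ex δ x f + t ≤ f v) := by
    intro v hv
    rw [mem_nbhd] at hv
    obtain ⟨x, hx, hxv⟩ := hv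
    rw [Finset.mem_union, Finset.mem_filter, Finset.mem_biUnion]
    by_cases h : f v ≤ T + t
    · exact Or.inl ⟨Finset.mem_univ _, h⟩
    · refine Or.inr ⟨x, hx, ?_⟩
      rw [Finset.mem_filter]
      refine ⟨Finset.mem_univ _, (Nat.lt_ceil.1 hxv).le, ?_⟩
      have := hI x hx
      linarith [not_le.1 h]
  have h1 := (Finset.card_le_card hsub).trans (Finset.card_union_le _ _)
  have h2 : (I.biUnion (fun x => univ.filter fun v : Fin n → Bool =>
      (hammingDist x v : ℝ) ≤ δ * n ∧ ex δ x f + t ≤ f v)).card ≤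
      ∑ x ∈ I, (univ.filter fun v : Fin n → Bool =>
      (hammingDist x v : ℝ) ≤ δ * n ∧ ex δ x f + t ≤ f v).card := Finset.card_biUnion_le
  have h3 : ((nbhd ⌈δ * n⌉₊ I).card : ℝ) ≤
      ((univ.filter fun v : Fin n → Bool => f v ≤ T + t).card : ℝ) +
      ∑ x ∈ I, ((univ.filter fun v : Fin n → Bool =>
      (hammingDist x v : ℝ) ≤ δ * n ∧ ex δ x f + t ≤ f v).card : ℝ) := by
    exact_mod_cast h1.trans (Nat.add_le_add_left h2 _)
  refine h3.trans (add_le_add (count_small f hs _) ?_)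
  rw [← nsmul_eq_mul, ← Finset.sum_const]
  exact Finset.sum_le_sum fun x hx => tail_lip hδ0 hδ hn hL f hf x ht

/-- **Codes all of whose words have a small expected value.** -/
theorem master {δ : ℝ} (hδ0 : 0 < δ) (hδ : δ ≤ 1 / 2) {n : ℕ} (hn : 1 ≤ n) {L : ℝ} (hL : 0 < L)
    (f : (Fin n → Bool) → ℝ) (hf : Lip L f) (hs : ∑ u, Real.exp (-(f u)) ≤ 1) {T t : ℝ}
    (ht : 0 ≤ t)
    (hA : 2 * (A n ⌈δ * n⌉₊ : ℝ) ≤ (2 : ℝ) ^ ((1 - H δ) * n) * Real.exp (2 * t ^ 2 / (n * L ^ 2)))
    (I : Finset (Fin n → Bool)) (hcode : IsCode ⌈δ * n⌉₊ I) (hI : ∀ x ∈ I, ex δ x f ≤ T) :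
    (I.card : ℝ) * 2 ^ n ≤ 2 * A n ⌈δ * n⌉₊ * Real.exp (T + t) := by
  classical
  have hn0 : (0 : ℝ) < n := by exact_mod_cast hn
  have hd : 1 ≤ ⌈δ * n⌉₊ := Nat.one_le_iff_ne_zero.2 (Nat.ceil_pos.2 (by positivity)).ne'
  have h1 := replacement hd I hcode
  have h1R : (I.card : ℝ) * 2 ^ n ≤ A n ⌈δ * n⌉₊ * ((nbhd ⌈δ * n⌉₊ I).card : ℝ) := by
    exact_mod_cast h1
  have h2 := nbhd_lip hδ0 hδ hn hL f hf hs ht I hI
  set a : ℝ := (A n ⌈δ * n⌉₊ : ℝ) with ha
  have ha0 : 0 ≤ a := Nat.cast_nonneg _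
  have h3 : a * ((2 : ℝ) ^ (H δ * n) * Real.exp (-(2 * t ^ 2 / (n * L ^ 2)))) ≤ 2 ^ n / 2 := by
    have hpos : 0 ≤ (2 : ℝ) ^ (H δ * n) * Real.exp (-(2 * t ^ 2 / (n * L ^ 2))) := by positivity
    have h4 := mul_le_mul_of_nonneg_right hA hpos
    have e : (2 : ℝ) ^ ((1 - H δ) * n) * Real.exp (2 * t ^ 2 / (n * L ^ 2)) *
        ((2 : ℝ) ^ (H δ * n) * Real.exp (-(2 * t ^ 2 / (n * L ^ 2)))) = 2 ^ n := by
      have e3 : (1 - H δ) * n + H δ * n = (n : ℝ) := by ring
      calc (2 : ℝ) ^ ((1 - H δ) * n) * Real.exp (2 * t ^ 2 / (n * L ^ 2)) *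
        ((2 : ℝ) ^ (H δ * n) * Real.exp (-(2 * t ^ 2 / (n * L ^ 2))))
          = ((2 : ℝ) ^ ((1 - H δ) * n) * (2 : ℝ) ^ (H δ * n)) *
            (Real.exp (2 * t ^ 2 / (n * L ^ 2)) * Real.exp (-(2 * t ^ 2 / (n * L ^ 2)))) := by ring
        _ = 2 ^ n := by
            rw [← Real.exp_add, ← Real.rpow_add (by norm_num), add_neg_cancel, Real.exp_zero,
              mul_one, e3, Real.rpow_natCast]
    rw [e] at h4
    linarith
  have h5 : a * ((nbhd ⌈δ * n⌉₊ I).card : ℝ) ≤ a * Real.exp (T + t) + I.card * (2 ^ n / 2) := by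
    calc a * ((nbhd ⌈δ * n⌉₊ I).card : ℝ)
        ≤ a * (Real.exp (T + t) +
          I.card * ((2 : ℝ) ^ (H δ * n) * Real.exp (-(2 * t ^ 2 / (n * L ^ 2))))) :=
          mul_le_mul_of_nonneg_left h2 ha0
      _ = a * Real.exp (T + t) + I.card *
          (a * ((2 : ℝ) ^ (H δ * n) * Real.exp (-(2 * t ^ 2 / (n * L ^ 2))))) := by ring
      _ ≤ _ := by
          have := mul_le_mul_of_nonneg_left h3 (Nat.cast_nonneg (α := ℝ) I.card)
          linarith
  linarith

end Pool.Agent.Helper89K9.GV
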