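import Pool.Agent.Helper89K9.GV.Tfae

/-!
Subcodes of the same rate in which almost all received words are decoded uniquely.
-/

set_option autoImplicit false

namespace Pool.Agent.Helper89K9.GV

open Finset Filter
open Pool.Agent.Results.MP_0430e4_lc.ConstantWeightCriterion

section Colour

variable {α : Type} [Fintype α] [DecidableEq α]

/-- the total weight of the pairs with the same colour -/
noncomputable def mono {m : ℕ} (w : α → α → ℝ) (χ : α → Fin m) : ℝ :=
  ∑ a, ∑ b, if a ≠ b ∧ χ a = χ b then w a b else 0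

lemma mono_split {m : ℕ} (w : α → α → ℝ) (hw : ∀ a b, w a b = w b a) (χ : α → Fin m) (x : α) :
    mono w χ = 2 * ∑ b ∈ univ.erase x, (if χ b = χ x then w x b else 0) +
      ∑ a ∈ univ.erase x, ∑ b ∈ univ.erase x, (if a ≠ b ∧ χ a = χ b then w a b else 0) := by
  have e1 : ∀ a, ∑ b, (if a ≠ b ∧ χ a = χ b then w a b else 0) =
      (if a ≠ x ∧ χ a = χ x then w a x else 0) +
        ∑ b ∈ univ.erase x, (if a ≠ b ∧ χ a = χ b then w a b else 0) := by
    intro a
    rw [← Finset.add_sum_erase univ _ (Finset.mem_univ x)]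
  unfold mono
  rw [← Finset.add_sum_erase univ _ (Finset.mem_univ x), e1 x,
    Finset.sum_congr rfl (fun a _ => e1 a), Finset.sum_add_distrib]
  have e2 : ∑ b ∈ univ.erase x, (if x ≠ b ∧ χ x = χ b then w x b else 0) =
      ∑ b ∈ univ.erase x, (if χ b = χ x then w x b else 0) := by
    apply Finset.sum_congr rfl
    intro b hb
    have hb' := Finset.ne_of_mem_erase hb
    by_cases h : χ b = χ x
    · rw [if_pos h, if_pos ⟨hb'.symm, h.symm⟩]
    · rw [if_neg h, if_neg (fun h' => h h'.2.symm)]
  have e3 : ∑ a ∈ univ.erase x, (if a ≠ x ∧ χ a = χ x then w a x else 0) =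
      ∑ b ∈ univ.erase x, (if χ b = χ x then w x b else 0) := by
    apply Finset.sum_congr rfl
    intro b hb
    have hb' := Finset.ne_of_mem_erase hb
    by_cases h : χ b = χ x
    · rw [if_pos h, if_pos ⟨hb', h⟩, hw]
    · rw [if_neg h, if_neg (fun h' => h h'.2)]
  rw [e2, e3]
  simp
  ring

/-- a colouring in which the own colour of each point is not heavier than average -/
lemma colouring (w : α → α → ℝ) (hw : ∀ a b, w a b = w b a) {m : ℕ} (hm : 1 ≤ m) :
    ∃ χ : α → Fin m, ∀ x, m * ∑ b ∈ univ.erase x, (if χ b = χ x then w x b else 0) ≤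
      ∑ b ∈ univ.erase x, w x b := by
  have : Nonempty (Fin m) := ⟨⟨0, by omega⟩⟩
  obtain ⟨χ, -, hχ⟩ := Finset.exists_min_image (univ : Finset (α → Fin m)) (mono w)
    Finset.univ_nonempty
  refine ⟨χ, fun x => ?_⟩
  have h1 : ∀ j : Fin m, ∑ b ∈ univ.erase x, (if χ b = χ x then w x b else 0) ≤
      ∑ b ∈ univ.erase x, (if χ b = j then w x b else 0) := by
    intro j
    have h2 := hχ (Function.update χ x j) (Finset.mem_univ _)
    rw [mono_split w hw χ x, mono_split w hw (Function.update χ x j) x] at h2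
    have e1 : ∑ b ∈ univ.erase x, (if (Function.update χ x j) b = (Function.update χ x j) x
        then w x b else 0) = ∑ b ∈ univ.erase x, (if χ b = j then w x b else 0) := by
      apply Finset.sum_congr rfl
      intro b hb
      have hb' := Finset.ne_of_mem_erase hb
      rw [Function.update_of_ne hb', Function.update_self]
    have e2 : ∑ a ∈ univ.erase x, ∑ b ∈ univ.erase x,
        (if a ≠ b ∧ (Function.update χ x j) a = (Function.update χ x j) b then w a b else 0) =
        ∑ a ∈ univ.erase x, ∑ b ∈ univ.erase x, (if a ≠ b ∧ χ a = χ b then w a b else 0) := by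
      apply Finset.sum_congr rfl
      intro a ha
      apply Finset.sum_congr rfl
      intro b hb
      rw [Function.update_of_ne (Finset.ne_of_mem_erase ha),
        Function.update_of_ne (Finset.ne_of_mem_erase hb)]
    rw [e1, e2] at h2
    linarith
  calc m * ∑ b ∈ univ.erase x, (if χ b = χ x then w x b else 0)
      = ∑ _j : Fin m, ∑ b ∈ univ.erase x, (if χ b = χ x then w x b else 0) := by
        rw [Finset.sum_const, Finset.card_univ, Fintype.card_fin, nsmul_eq_mul]
    _ ≤ ∑ j : Fin m, ∑ b ∈ univ.erase x, (if χ b = j then w x b else 0) :=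
        Finset.sum_le_sum fun j _ => h1 j
    _ = ∑ b ∈ univ.erase x, w x b := by
        rw [Finset.sum_comm]
        apply Finset.sum_congr rfl
        intro b _
        simp

end Colour

/-- the ball with radius `δ n` -/
noncomputable def ball {n : ℕ} (δ : ℝ) (x : Fin n → Bool) : Finset (Fin n → Bool) :=
  univ.filter fun y => (hammingDist x y : ℝ) ≤ δ * n

lemma mem_ball {n : ℕ} {δ : ℝ} {x y : Fin n → Bool} :
    y ∈ ball δ x ↔ (hammingDist x y : ℝ) ≤ δ * n := by
  simp [ball]

lemma card_ball {n : ℕ} (δ : ℝ) (x : Fin n → Bool) :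
    (ball δ x).card = (univ.filter fun v : Fin n → Bool => (weight v : ℝ) ≤ δ * n).card := by
  classical
  rw [← count_tr x (fun v => (weight v : ℝ) ≤ δ * n)]
  unfold ball
  congr 1
  ext y
  simp only [Finset.mem_filter, Finset.mem_univ, true_and]
  rw [weight_tr, hammingDist_comm]

/-- the volume of the balls -/
noncomputable def vol (δ : ℝ) (n : ℕ) : ℕ :=
  (univ.filter fun v : Fin n → Bool => (weight v : ℝ) ≤ δ * n).card

/-- every code has a subcode of the same rate in which almost all the received words near each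
sent word are near no other word of the subcode -/
def UniqueSub (δ : ℝ) : Prop :=
  ∀ ε : ℝ, 0 < ε → ∃ c : ℝ, 0 < c ∧ ∃ N : ℕ, ∀ n ≥ N, ∀ C : Finset (Fin n → Bool),
    IsCode ⌈δ * n⌉₊ C → ∃ C' ⊆ C, (2 : ℝ) ^ (-(ε * n)) * C.card ≤ C'.card ∧
      ∀ x ∈ C', (((ball δ x).filter fun y => ∃ x' ∈ C', x' ≠ x ∧ y ∈ ball δ x').card : ℝ) ≤
        (2 : ℝ) ^ (-(c * n)) * (ball δ x).card

lemma vol_pos {δ : ℝ} (h0 : 0 < δ) (n : ℕ) : 0 < vol δ n := by
  unfold vol
  apply Finset.card_pos.2
  refine ⟨fun _ => false, ?_⟩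
  rw [Finset.mem_filter]
  refine ⟨Finset.mem_univ _, ?_⟩
  simp [weight]
  positivity

theorem sub_of_strong {δ : ℝ} (h0 : 0 < δ) (h : ListStrong δ) : UniqueSub δ := by
  classical
  intro ε hε
  obtain ⟨c, hc, N₀, hN₀⟩ := h (ε / 4) (by linarith)
  set c' : ℝ := min (c / 2) (ε / 4) / 2 with hc'
  have hc'0 : 0 < c' := by
    have : 0 < min (c / 2) (ε / 4) := lt_min (by linarith) (by linarith)
    rw [hc']
    linarith
  have hev := (large (c / 2) 1 (by linarith)).and ((large (ε / 2) 2 (by linarith)).and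
    ((large c' 1 hc'0).and (eventually_ge_atTop 1)))
  obtain ⟨N₁, hN₁⟩ := eventually_atTop.1 hev
  refine ⟨c', hc'0, max N₀ N₁, fun n hn C hcode => ?_⟩
  obtain ⟨a1, a2, a3, hn1⟩ := hN₁ n ((le_max_right _ _).trans hn)
  have hn0 : (0 : ℝ) < n := by exact_mod_cast hn1
  rcases C.eq_empty_or_nonempty with hC | hC
  · subst hC
    exact ⟨∅, Finset.Subset.refl _, by simp, by simp⟩
  have hcC : (0 : ℝ) < C.card := by exact_mod_cast hC.card_pos
  have hbad := hN₀ n ((le_max_left _ _).trans hn) C hcode
  set V : ℝ := (vol δ n : ℝ) with hV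
  have hV0 : 0 < V := by
    rw [hV]
    exact_mod_cast vol_pos h0 n
  have hball : ∀ x : Fin n → Bool, ((ball δ x).card : ℝ) = V := fun x => by
    rw [card_ball]; rfl
  set u : ℝ := (2 : ℝ) ^ (ε / 4 * n) with hu
  have hu0 : 0 < u := by positivity
  -- the pairs
  set bad : (Fin n → Bool) → ℕ := fun x => ((ball δ x).filter fun y => u ≤ near δ C y).card
    with hbd
  have e1 : (((pairs δ C).filter fun p => u ≤ near δ C p.2).card : ℝ) = ∑ x ∈ C, (bad x : ℝ) := by
    have : ((pairs δ C).filter fun p => u ≤ near δ C p.2).card = ∑ x ∈ C, bad x := by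
      unfold pairs
      rw [Finset.filter_filter, Finset.card_filter, Finset.sum_product]
      apply Finset.sum_congr rfl
      intro x _
      rw [← Finset.card_filter, hbd]
      simp only
      unfold ball
      rw [Finset.filter_filter]
    rw [this]
    push_cast
    rfl
  have e2 : ((pairs δ C).card : ℝ) = C.card * V := by
    rw [card_pairs, ← nsmul_eq_mul, ← Finset.sum_const]
    exact Finset.sum_congr rfl fun x _ => hball x
  rw [e1, e2] at hbad
  -- the words with few bad neighbours
  set C₁ := C.filter fun x => (bad x : ℝ) ≤ (2 : ℝ) ^ (-(c / 2 * n)) * V with hC₁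
  have h5 : (2 : ℝ) ^ (-(c / 2 * n)) ≤ 1 / 2 := by
    calc (2 : ℝ) ^ (-(c / 2 * n)) ≤ (2 : ℝ) ^ (-1 : ℝ) :=
          Real.rpow_le_rpow_of_exponent_le (by norm_num) (by linarith)
      _ = 1 / 2 := by rw [Real.rpow_neg_one]; norm_num
  have hC₁card : (C.card : ℝ) / 2 ≤ C₁.card := by
    have h2 : ((C.filter fun x => ¬ ((bad x : ℝ) ≤ (2 : ℝ) ^ (-(c / 2 * n)) * V)).card : ℝ) *
        ((2 : ℝ) ^ (-(c / 2 * n)) * V) ≤ (2 : ℝ) ^ (-(c * n)) * (C.card * V) := by
      refine le_trans ?_ hbad
      rw [← nsmul_eq_mul, ← Finset.sum_const]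
      calc ∑ _x ∈ C.filter (fun x => ¬ ((bad x : ℝ) ≤ (2 : ℝ) ^ (-(c / 2 * n)) * V)),
            (2 : ℝ) ^ (-(c / 2 * n)) * V
          ≤ ∑ x ∈ C.filter (fun x => ¬ ((bad x : ℝ) ≤ (2 : ℝ) ^ (-(c / 2 * n)) * V)), (bad x : ℝ) :=
            Finset.sum_le_sum fun x hx => (not_le.1 (Finset.mem_filter.1 hx).2).le
        _ ≤ ∑ x ∈ C, (bad x : ℝ) :=
            Finset.sum_le_sum_of_subset_of_nonneg (Finset.filter_subset _ _)
              (fun x _ _ => Nat.cast_nonneg _)
    have h3 : (2 : ℝ) ^ (-(c * n)) = (2 : ℝ) ^ (-(c / 2 * n)) * (2 : ℝ) ^ (-(c / 2 * n)) := by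
      rw [← Real.rpow_add (by norm_num)]
      congr 1
      ring
    rw [h3] at h2
    have h4 : ((C.filter fun x => ¬ ((bad x : ℝ) ≤ (2 : ℝ) ^ (-(c / 2 * n)) * V)).card : ℝ) ≤
        (2 : ℝ) ^ (-(c / 2 * n)) * C.card := by
      have h6 : 0 < (2 : ℝ) ^ (-(c / 2 * n)) * V := by positivity
      have h7 : (2 : ℝ) ^ (-(c / 2 * n)) * (2 : ℝ) ^ (-(c / 2 * n)) * (C.card * V) =
          ((2 : ℝ) ^ (-(c / 2 * n)) * C.card) * ((2 : ℝ) ^ (-(c / 2 * n)) * V) := by ring
      rw [h7] at h2
      exact le_of_mul_le_mul_right h2 h6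
    have h6 : (C₁.card : ℝ) +
        ((C.filter fun x => ¬ ((bad x : ℝ) ≤ (2 : ℝ) ^ (-(c / 2 * n)) * V)).card : ℝ) = C.card := by
      exact_mod_cast Finset.card_filter_add_card_filter_not (s := C)
        (fun x => (bad x : ℝ) ≤ (2 : ℝ) ^ (-(c / 2 * n)) * V)
    have h7 := mul_le_mul_of_nonneg_right h5 hcC.le
    linarith
  -- the colouring
  set m : ℕ := ⌈(2 : ℝ) ^ (ε / 2 * n)⌉₊ with hm
  have hm1 : (1 : ℝ) ≤ (2 : ℝ) ^ (ε / 2 * n) := Real.one_le_rpow (by norm_num) (by positivity)
  have hm2 : (2 : ℝ) ^ (ε / 2 * n) ≤ m := Nat.le_ceil _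
  have hm3 : (m : ℝ) ≤ 2 * (2 : ℝ) ^ (ε / 2 * n) := by
    have := Nat.ceil_lt_add_one (by positivity : (0 : ℝ) ≤ (2 : ℝ) ^ (ε / 2 * n))
    rw [← hm] at this
    linarith
  have hm0 : 1 ≤ m := by
    have : (0 : ℝ) < m := by linarith
    exact_mod_cast this
  set w : (Fin n → Bool) → (Fin n → Bool) → ℝ := fun x x' =>
    if x ∈ C₁ ∧ x' ∈ C₁ then
      (((ball δ x ∩ ball δ x').filter fun y => (near δ C y : ℝ) < u).card : ℝ) else 0 with hwdef
  have hsym : ∀ a b, w a b = w b a := by
    intro a b
    rw [hwdef]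
    simp only
    rw [Finset.inter_comm]
    by_cases ha : a ∈ C₁ <;> by_cases hb : b ∈ C₁ <;> simp [ha, hb]
  obtain ⟨χ, hχ⟩ := colouring w hsym hm0
  obtain ⟨j, -, hj⟩ := Finset.exists_le_card_fiber_of_nsmul_le_card_of_maps_to
    (s := C₁) (t := (univ : Finset (Fin m))) (f := χ) (b := (C₁.card : ℝ) / m)
    (fun _ _ => Finset.mem_univ _) ⟨⟨0, by omega⟩, Finset.mem_univ _⟩ (by
      rw [Finset.card_univ, Fintype.card_fin, nsmul_eq_mul]
      have : (m : ℝ) ≠ 0 := by
        have : m ≠ 0 := by omega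
        exact_mod_cast this
      field_simp
      exact le_rfl)
  set C' := C₁.filter fun x => χ x = j with hC'
  have hmR : (0 : ℝ) < m := by exact_mod_cast hm0
  refine ⟨C', (Finset.filter_subset _ _).trans (Finset.filter_subset _ _), ?_, ?_⟩
  · refine le_trans ?_ hj
    rw [le_div_iff₀ hmR]
    have h2 : (2 : ℝ) ^ (-(ε * n)) * m ≤ 1 / 2 := by
      calc (2 : ℝ) ^ (-(ε * n)) * m ≤ (2 : ℝ) ^ (-(ε * n)) * (2 * (2 : ℝ) ^ (ε / 2 * n)) :=
            mul_le_mul_of_nonneg_left hm3 (by positivity)
        _ = 2 * (2 : ℝ) ^ (-(ε / 2 * n)) := by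
            rw [show (2 : ℝ) ^ (-(ε * n)) * (2 * (2 : ℝ) ^ (ε / 2 * n)) =
              2 * ((2 : ℝ) ^ (-(ε * n)) * (2 : ℝ) ^ (ε / 2 * n)) by ring,
              ← Real.rpow_add (by norm_num)]
            congr 2
            ring
        _ ≤ 2 * (2 : ℝ) ^ (-2 : ℝ) := by
            apply mul_le_mul_of_nonneg_left _ (by norm_num)
            exact Real.rpow_le_rpow_of_exponent_le (by norm_num) (by linarith)
        _ = 1 / 2 := by
            rw [show (-2 : ℝ) = ((-2 : ℤ) : ℝ) by norm_num, Real.rpow_intCast]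
            norm_num
    calc (2 : ℝ) ^ (-(ε * n)) * C.card * m = ((2 : ℝ) ^ (-(ε * n)) * m) * C.card := by ring
      _ ≤ 1 / 2 * C.card := mul_le_mul_of_nonneg_right h2 hcC.le
      _ = C.card / 2 := by ring
      _ ≤ C₁.card := hC₁card
  · intro x hx
    have hx1 : x ∈ C₁ := (Finset.mem_filter.1 hx).1
    have hxj : χ x = j := (Finset.mem_filter.1 hx).2
    have hxC : x ∈ C := (Finset.mem_filter.1 hx1).1
    rw [hball]
    -- the total weight at `x`
    have h2 : ∑ b ∈ univ.erase x, w x b ≤ V * u := by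
      calc ∑ b ∈ univ.erase x, w x b ≤ ∑ b ∈ C₁,
            (((ball δ x ∩ ball δ b).filter fun y => (near δ C y : ℝ) < u).card : ℝ) := by
            calc ∑ b ∈ univ.erase x, w x b ≤ ∑ b, w x b := by
                  apply Finset.sum_le_sum_of_subset_of_nonneg (Finset.subset_univ _)
                  intro b _ _
                  rw [hwdef]
                  simp only
                  split_ifs
                  · exact Nat.cast_nonneg _
                  · exact le_rfl
              _ = _ := by
                  rw [← Finset.sum_filter_add_sum_filter_not univ (fun b => b ∈ C₁)]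
                  have z : ∑ b ∈ univ.filter (fun b => b ∉ C₁), w x b = 0 := by
                    apply Finset.sum_eq_zero
                    intro b hb
                    rw [hwdef]
                    simp only
                    rw [if_neg]
                    intro h'
                    exact (Finset.mem_filter.1 hb).2 h'.2
                  rw [z, add_zero]
                  have : univ.filter (fun b => b ∈ C₁) = C₁ := by ext b; simp
                  rw [this]
                  apply Finset.sum_congr rfl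
                  intro b hb
                  rw [hwdef]
                  simp only
                  rw [if_pos ⟨hx1, hb⟩]
        _ ≤ ∑ b ∈ C, (((ball δ x ∩ ball δ b).filter fun y => (near δ C y : ℝ) < u).card : ℝ) :=
            Finset.sum_le_sum_of_subset_of_nonneg (Finset.filter_subset _ _)
              (fun _ _ _ => Nat.cast_nonneg _)
        _ = ∑ y ∈ (ball δ x).filter (fun y => (near δ C y : ℝ) < u), (near δ C y : ℝ) := by
            have e3 : ∀ b, (((ball δ x ∩ ball δ b).filter fun y => (near δ C y : ℝ) < u).card : ℝ) =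
                ∑ y ∈ (ball δ x).filter (fun y => (near δ C y : ℝ) < u),
                  (if (hammingDist b y : ℝ) ≤ δ * n then (1 : ℝ) else 0) := by
              intro b
              rw [← Finset.sum_filter, Finset.sum_const, nsmul_eq_mul, mul_one]
              congr 2
              ext y
              simp only [Finset.mem_filter, Finset.mem_inter, mem_ball]
              tauto
            simp_rw [e3]
            rw [Finset.sum_comm]
            apply Finset.sum_congr rfl
            intro y _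
            rw [← Finset.sum_filter, Finset.sum_const, nsmul_eq_mul, mul_one]
            rfl
        _ ≤ ∑ _y ∈ (ball δ x).filter (fun y => (near δ C y : ℝ) < u), u :=
            Finset.sum_le_sum fun y hy => (Finset.mem_filter.1 hy).2.le
        _ ≤ V * u := by
            rw [Finset.sum_const, nsmul_eq_mul, ← hball x]
            apply mul_le_mul_of_nonneg_right _ hu0.le
            exact_mod_cast Finset.card_le_card (Finset.filter_subset _ _)
    have h3 : ∑ b ∈ univ.erase x, (if χ b = χ x then w x b else 0) ≤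
        (2 : ℝ) ^ (-(ε / 4 * n)) * V := by
      have h4 := (hχ x).trans h2
      have h6 : (2 : ℝ) ^ (ε / 2 * n) * ∑ b ∈ univ.erase x, (if χ b = χ x then w x b else 0) ≤
          V * u := by
        refine le_trans (mul_le_mul_of_nonneg_right hm2 ?_) h4
        apply Finset.sum_nonneg
        intro b _
        rw [hwdef]
        simp only
        split_ifs
        · exact Nat.cast_nonneg _
        · exact le_rfl
        · exact le_rfl
      have h7 : V * u = (2 : ℝ) ^ (ε / 2 * n) * ((2 : ℝ) ^ (-(ε / 4 * n)) * V) := by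
        rw [← mul_assoc, ← Real.rpow_add (by norm_num), mul_comm V, hu]
        congr 2
        ring
      rw [h7] at h6
      exact le_of_mul_le_mul_left h6 (by positivity)
    -- the received words near another word
    have h4 : (((ball δ x).filter fun y => ∃ x' ∈ C', x' ≠ x ∧ y ∈ ball δ x').card : ℝ) ≤
        bad x + ∑ b ∈ univ.erase x, (if χ b = χ x then w x b else 0) := by
      have hsub : ((ball δ x).filter fun y => ∃ x' ∈ C', x' ≠ x ∧ y ∈ ball δ x') ⊆
          ((ball δ x).filter fun y => u ≤ near δ C y) ∪ (C'.erase x).biUnion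
            (fun b => (ball δ x ∩ ball δ b).filter fun y => (near δ C y : ℝ) < u) := by
        intro y hy
        rw [Finset.mem_filter] at hy
        obtain ⟨hy1, x', hx', hne, hy2⟩ := hy
        rw [Finset.mem_union, Finset.mem_filter, Finset.mem_biUnion]
        by_cases hb : u ≤ near δ C y
        · exact Or.inl ⟨hy1, hb⟩
        · exact Or.inr ⟨x', Finset.mem_erase.2 ⟨hne, hx'⟩,
            Finset.mem_filter.2 ⟨Finset.mem_inter.2 ⟨hy1, hy2⟩, not_le.1 hb⟩⟩
      have h6 := (Finset.card_le_card hsub).trans ((Finset.card_union_le _ _).trans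
        (Nat.add_le_add_left Finset.card_biUnion_le _))
      have h7 : (((ball δ x).filter fun y => ∃ x' ∈ C', x' ≠ x ∧ y ∈ ball δ x').card : ℝ) ≤
          bad x + ∑ b ∈ C'.erase x,
            (((ball δ x ∩ ball δ b).filter fun y => (near δ C y : ℝ) < u).card : ℝ) := by
        exact_mod_cast h6
      refine h7.trans (add_le_add_right ?_ _)
      calc ∑ b ∈ C'.erase x,
            (((ball δ x ∩ ball δ b).filter fun y => (near δ C y : ℝ) < u).card : ℝ)
          = ∑ b ∈ C'.erase x, (if χ b = χ x then w x b else 0) := by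
            apply Finset.sum_congr rfl
            intro b hb
            have hb' := Finset.mem_filter.1 (Finset.mem_of_mem_erase hb)
            rw [if_pos (hb'.2.trans hxj.symm), hwdef]
            simp only
            rw [if_pos ⟨hx1, hb'.1⟩]
        _ ≤ ∑ b ∈ univ.erase x, (if χ b = χ x then w x b else 0) := by
            apply Finset.sum_le_sum_of_subset_of_nonneg
            · exact Finset.erase_subset_erase _ (Finset.subset_univ _)
            · intro b _ _
              rw [hwdef]
              simp only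
              split_ifs
              · exact Nat.cast_nonneg _
              · exact le_rfl
              · exact le_rfl
    have h6 : (bad x : ℝ) ≤ (2 : ℝ) ^ (-(c / 2 * n)) * V := (Finset.mem_filter.1 hx1).2
    have h7 : (2 : ℝ) ^ (-(c / 2 * n)) ≤ (2 : ℝ) ^ (-(2 * c' * n)) := by
      apply Real.rpow_le_rpow_of_exponent_le (by norm_num)
      have : 2 * c' ≤ c / 2 := by
        rw [hc']
        have := min_le_left (c / 2) (ε / 4)
        linarith
      nlinarith
    have h8 : (2 : ℝ) ^ (-(ε / 4 * n)) ≤ (2 : ℝ) ^ (-(2 * c' * n)) := by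
      apply Real.rpow_le_rpow_of_exponent_le (by norm_num)
      have : 2 * c' ≤ ε / 4 := by
        rw [hc']
        have := min_le_right (c / 2) (ε / 4)
        linarith
      nlinarith
    have h9 : 2 * (2 : ℝ) ^ (-(2 * c' * n)) ≤ (2 : ℝ) ^ (-(c' * n)) := by
      nth_rewrite 1 [show (2 : ℝ) = 2 ^ (1 : ℝ) by norm_num]
      rw [← Real.rpow_add (by norm_num)]
      apply Real.rpow_le_rpow_of_exponent_le (by norm_num)
      linarith
    have g1 := mul_le_mul_of_nonneg_right h7 hV0.le
    have g2 := mul_le_mul_of_nonneg_right h8 hV0.le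
    have g3 := mul_le_mul_of_nonneg_right h9 hV0.le
    linarith

theorem sharp_of_sub {δ : ℝ} (h0 : 0 < δ) (h1 : δ < 1 / 2) (h : UniqueSub δ) :
    R δ = 1 - H δ := by
  classical
  apply le_antisymm _ ((gv h0 h1).1.trans (gv h0 h1).2)
  apply le_of_forall_pos_le_add
  intro η hη
  obtain ⟨c, hc, N, hN⟩ := h (η / 3) (by linarith)
  have hev : ∀ᶠ n : ℕ in atTop, Real.logb 2 (A n ⌈δ * n⌉₊) / n ≤ 1 - H δ + η := by
    filter_upwards [ball_asym h0 h1 (η := η / 3) (by linarith), eventually_ge_atTop N,
      eventually_ge_atTop 1, large c 1 hc, large (η / 3) 1 (by linarith)] with n a2 hn hn1 a3 a4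
    have hn0 : (0 : ℝ) < n := by exact_mod_cast hn1
    obtain ⟨C, hcode, hcard⟩ := exists_A n ⌈δ * n⌉₊
    obtain ⟨C', -, h2, h3⟩ := hN n hn C hcode
    have hball : ∀ x : Fin n → Bool, ((ball δ x).card : ℝ) = vol δ n := fun x => by
      rw [card_ball]; rfl
    have hV : (2 : ℝ) ^ ((H δ - η / 3) * n) ≤ vol δ n := by
      rw [← hball (fun _ => false)]
      exact a2 _
    have h5 : (2 : ℝ) ^ (-(c * n)) ≤ 1 / 2 := by
      calc (2 : ℝ) ^ (-(c * n)) ≤ (2 : ℝ) ^ (-1 : ℝ) :=
            Real.rpow_le_rpow_of_exponent_le (by norm_num) (by linarith)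
        _ = 1 / 2 := by rw [Real.rpow_neg_one]; norm_num
    -- the received words which are decoded uniquely
    set U : (Fin n → Bool) → Finset (Fin n → Bool) := fun x =>
      (ball δ x).filter fun y => ¬ ∃ x' ∈ C', x' ≠ x ∧ y ∈ ball δ x' with hU
    have h6 : ∀ x ∈ C', (vol δ n : ℝ) / 2 ≤ (U x).card := by
      intro x hx
      have h7 := h3 x hx
      have h8 := Finset.card_filter_add_card_filter_not (s := ball δ x)
        (fun y => ∃ x' ∈ C', x' ≠ x ∧ y ∈ ball δ x')
      have h9 : (((ball δ x).filter fun y => ∃ x' ∈ C', x' ≠ x ∧ y ∈ ball δ x').card : ℝ) +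
          (U x).card = vol δ n := by
        rw [← hball x, ← h8]
        push_cast
        rfl
      rw [hball] at h7
      have h10 := mul_le_mul_of_nonneg_right h5 (Nat.cast_nonneg (α := ℝ) (vol δ n))
      linarith
    have hdisj : (C' : Set (Fin n → Bool)).PairwiseDisjoint U := by
      intro x hx x' hx' hne
      rw [Function.onFun, Finset.disjoint_left]
      intro y hy hy'
      rw [hU, Finset.mem_filter] at hy hy'
      exact hy.2 ⟨x', hx', hne.symm, hy'.1⟩
    have h7 : (C'.card : ℝ) * (vol δ n / 2) ≤ 2 ^ n := by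
      calc (C'.card : ℝ) * (vol δ n / 2) = ∑ _x ∈ C', (vol δ n : ℝ) / 2 := by
            rw [Finset.sum_const, nsmul_eq_mul]
        _ ≤ ∑ x ∈ C', ((U x).card : ℝ) := Finset.sum_le_sum h6
        _ = ((C'.biUnion U).card : ℝ) := by
            rw [Finset.card_biUnion hdisj]
            push_cast
            rfl
        _ ≤ 2 ^ n := by
            have : (C'.biUnion U).card ≤ 2 ^ n := by
              refine (Finset.card_le_univ _).trans ?_
              simp
            exact_mod_cast this
    rw [hcard] at h2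
    have hpos : (0 : ℝ) < A n ⌈δ * n⌉₊ := by exact_mod_cast A_pos _ _
    have h8 : (2 : ℝ) ^ (-(η / 3 * n)) * A n ⌈δ * n⌉₊ * ((2 : ℝ) ^ ((H δ - η / 3) * n) / 2) ≤
        2 ^ n := by
      refine le_trans ?_ h7
      apply mul_le_mul h2 _ (by positivity) (Nat.cast_nonneg _)
      linarith
    have h9 : (A n ⌈δ * n⌉₊ : ℝ) ≤ (2 : ℝ) ^ ((1 - H δ + η) * n) := by
      have e1 : (2 : ℝ) ^ (-(η / 3 * n)) * A n ⌈δ * n⌉₊ * ((2 : ℝ) ^ ((H δ - η / 3) * n) / 2) =
          A n ⌈δ * n⌉₊ * (2 : ℝ) ^ (-(η / 3 * n) + (H δ - η / 3) * n - 1) := by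
        rw [Real.rpow_sub_one (by norm_num), Real.rpow_add (by norm_num)]
        ring
      have e2 : (2 : ℝ) ^ n ≤
          (2 : ℝ) ^ ((1 - H δ + η) * n) * (2 : ℝ) ^ (-(η / 3 * n) + (H δ - η / 3) * n - 1) := by
        rw [← Real.rpow_natCast 2 n, ← Real.rpow_add (by norm_num)]
        apply Real.rpow_le_rpow_of_exponent_le (by norm_num)
        nlinarith
      rw [e1] at h8
      exact le_of_mul_le_mul_right (h8.trans e2) (by positivity)
    rw [div_le_iff₀ hn0, Real.logb_le_iff_le_rpow (by norm_num) hpos]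
    exact h9
  exact limsup_le_of_le (bdd_ge (rateA δ)).isCoboundedUnder_flip hev

end Pool.Agent.Helper89K9.GV
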