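import Pool.Agent.Helper89K9.GV.Asym

/-!
Sharpness of the bound of Gilbert and Varshamov and list decoding from random errors.
-/

set_option autoImplicit false

namespace Pool.Agent.Helper89K9.GV

open Finset Filter
open Pool.Agent.Results.MP_0430e4_lc.ConstantWeightCriterion

/-- all but exponentially few pairs have few words of the code near the received word -/
def ListStrong (δ : ℝ) : Prop :=
  ∀ ε : ℝ, 0 < ε → ∃ c : ℝ, 0 < c ∧ ∃ N : ℕ, ∀ n ≥ N, ∀ C : Finset (Fin n → Bool),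
    IsCode ⌈δ * n⌉₊ C →
      (((pairs δ C).filter fun p => (2 : ℝ) ^ (ε * n) ≤ near δ C p.2).card : ℝ) ≤
        (2 : ℝ) ^ (-(c * n)) * (pairs δ C).card

/-- for the largest codes not exponentially few pairs have few words of the code near the received
word -/
def ListWeak (δ : ℝ) : Prop :=
  ∀ ε : ℝ, 0 < ε → ∃ N : ℕ, ∀ n ≥ N, ∀ C : Finset (Fin n → Bool),
    IsCode ⌈δ * n⌉₊ C → C.card = A n ⌈δ * n⌉₊ →
      (2 : ℝ) ^ (-(ε * n)) * (pairs δ C).card ≤
        (((pairs δ C).filter fun p => (near δ C p.2 : ℝ) < (2 : ℝ) ^ (ε * n)).card : ℝ)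

lemma large (c b : ℝ) (hc : 0 < c) : ∀ᶠ n : ℕ in atTop, b ≤ c * (n : ℝ) :=
  (tendsto_natCast_atTop_atTop.const_mul_atTop hc).eventually_ge_atTop b

/-- the volume of the ball -/
lemma ball_asym {δ : ℝ} (h0 : 0 < δ) (h1 : δ < 1 / 2) {η : ℝ} (hη : 0 < η) :
    ∀ᶠ n : ℕ in atTop, ∀ x : Fin n → Bool, (2 : ℝ) ^ ((H δ - η) * n) ≤
      ((univ.filter fun v : Fin n → Bool => (hammingDist x v : ℝ) ≤ δ * n).card : ℝ) := by
  have hlog : 0 < Real.log 2 := Real.log_pos (by norm_num)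
  set h : ℝ → ℝ := fun s => H s - (δ - s) * Real.log ((1 - s) / s) / Real.log 2 with hh
  have hcont : ContinuousAt h δ := by
    apply ContinuousAt.sub H_cont.continuousAt
    apply ContinuousAt.div_const
    apply ContinuousAt.mul (by fun_prop)
    apply ContinuousAt.log
    · exact ContinuousAt.div (by fun_prop) continuousAt_id h0.ne'
    · exact (div_pos (by linarith) h0).ne'
  have hval : h δ = H δ := by simp [hh]
  have h2 : ∀ᶠ s in nhds δ, H δ - η / 2 < h s := by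
    apply hcont.eventually (lt_mem_nhds _)
    rw [hval]
    linarith
  obtain ⟨r, hr, hball⟩ := Metric.eventually_nhds_iff.1 h2
  set δ' : ℝ := max (δ / 2) (δ - r / 2) with hδ'
  have d1 : 0 < δ' := lt_of_lt_of_le (by linarith) (le_max_left _ _)
  have d2 : δ' < δ := max_lt (by linarith) (by linarith)
  have d3 : H δ - η / 2 < h δ' := by
    apply hball
    rw [Real.dist_eq, abs_lt]
    have := le_max_right (δ / 2) (δ - r / 2)
    rw [← hδ'] at this
    constructor <;> linarith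
  filter_upwards [large (2 * (δ - δ') ^ 2) (Real.log 4) (by
    have : 0 < δ - δ' := by linarith
    positivity), large (η / 2) 1 (by linarith), eventually_ge_atTop 1] with n a1 a2 hn x
  have hn0 : (0 : ℝ) < n := by exact_mod_cast hn
  have h3 : 2 * Real.exp (-(2 * (δ - δ') ^ 2 * n)) ≤ 1 / 2 := by
    have h4 : Real.exp (-(2 * (δ - δ') ^ 2 * n)) ≤ Real.exp (-Real.log 4) := by
      apply Real.exp_le_exp.2
      linarith
    have h5 : Real.exp (-Real.log 4) = 1 / 4 := by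
      rw [Real.exp_neg, Real.exp_log (by norm_num)]
      norm_num
    rw [h5] at h4
    linarith
  have h4 := ball_ge d1 d2 h1 hn x h3
  have h5 : (2 : ℝ) ^ (H δ' * n) * Real.exp (-((δ - δ') * Real.log ((1 - δ') / δ') * n)) =
      (2 : ℝ) ^ (h δ' * n) := by
    rw [two_rpow, two_rpow, ← Real.exp_add]
    congr 1
    rw [hh]
    field_simp
    ring
  rw [h5] at h4
  have h6 : 2 * (2 : ℝ) ^ ((H δ - η) * n) ≤ (2 : ℝ) ^ (h δ' * n) := by
    nth_rewrite 1 [show (2 : ℝ) = 2 ^ (1 : ℝ) by norm_num]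
    rw [← Real.rpow_add (by norm_num)]
    apply Real.rpow_le_rpow_of_exponent_le (by norm_num)
    nlinarith
  linarith

lemma card_pairs {n : ℕ} (δ : ℝ) (C : Finset (Fin n → Bool)) : ((pairs δ C).card : ℝ) =
    ∑ x ∈ C, ((univ.filter fun v : Fin n → Bool => (hammingDist x v : ℝ) ≤ δ * n).card : ℝ) := by
  classical
  have e1 : (pairs δ C).card =
      ∑ x ∈ C, (univ.filter fun y : Fin n → Bool => (hammingDist x y : ℝ) ≤ δ * n).card := by
    unfold pairs
    rw [Finset.card_filter, Finset.sum_product]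
    apply Finset.sum_congr rfl
    intro x _
    rw [Finset.card_filter]
  rw [e1]
  push_cast
  rfl

lemma pairs_ge {n : ℕ} {δ b : ℝ} (C : Finset (Fin n → Bool)) (h : ∀ x : Fin n → Bool, b ≤
      ((univ.filter fun v : Fin n → Bool => (hammingDist x v : ℝ) ≤ δ * n).card : ℝ)) :
    C.card * b ≤ (pairs δ C).card := by
  rw [card_pairs, ← nsmul_eq_mul, ← Finset.sum_const]
  exact Finset.sum_le_sum fun x _ => h x

theorem strong_of_sharp {δ : ℝ} (h0 : 0 < δ) (h1 : δ < 1 / 2) (hR : R δ = 1 - H δ) :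
    ListStrong δ := by
  classical
  intro ε hε
  have hlog : 0 < Real.log 2 := Real.log_pos (by norm_num)
  have hL := log_ratio_pos h0 h1
  set L := Real.log ((1 - δ) / δ) with hLdef
  set c₁ : ℝ := min (ε / 4) (ε ^ 2 * Real.log 2 / (2 * L ^ 2)) with hc₁
  have hc₁0 : 0 < c₁ := by
    rw [hc₁]
    apply lt_min <;> positivity
  refine ⟨c₁ / 2, by linarith, ?_⟩
  have hev := (bnd_tendsto h0 h1 hR (ε := ε / 4) (by linarith)).and
    ((ball_asym h0 h1 (η := c₁ / 4) (by linarith)).and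
    ((large (c₁ / 4) 2 (by linarith)).and (eventually_ge_atTop 1)))
  obtain ⟨N, hN⟩ := eventually_atTop.1 hev
  refine ⟨N, fun n hn C hcode => ?_⟩
  obtain ⟨a1, a2, a3, hn1⟩ := hN n hn
  have hn0 : (0 : ℝ) < n := by exact_mod_cast hn1
  rcases C.eq_empty_or_nonempty with hC | hC
  · subst hC
    simp [pairs]
  have h2 := bad_pairs h0 h1 hn1 hC hcode (a := ε / 4 * n) (u := ε * n) (by nlinarith)
  refine h2.trans ?_
  have e1 : (2 : ℝ) ^ (1 - ε / 4 * n) ≤ (2 : ℝ) ^ (1 - c₁ * n) := by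
    apply Real.rpow_le_rpow_of_exponent_le (by norm_num)
    have : c₁ ≤ ε / 4 := min_le_left _ _
    nlinarith
  have e2 : Real.exp (-(2 * ((ε * n - bnd δ n - ε / 4 * n) * Real.log 2) ^ 2 / (n * L ^ 2))) ≤
      (2 : ℝ) ^ (-(c₁ * n)) := by
    rw [two_rpow]
    apply Real.exp_le_exp.2
    have h3 : (ε / 2 * n) ≤ ε * n - bnd δ n - ε / 4 * n := by linarith
    have h4 : (ε / 2 * n * Real.log 2) ^ 2 ≤
        ((ε * n - bnd δ n - ε / 4 * n) * Real.log 2) ^ 2 := by
      apply pow_le_pow_left₀ (by positivity)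
      exact mul_le_mul_of_nonneg_right h3 hlog.le
    have h5 : 2 * (ε / 2 * n * Real.log 2) ^ 2 / (n * L ^ 2) ≤
        2 * ((ε * n - bnd δ n - ε / 4 * n) * Real.log 2) ^ 2 / (n * L ^ 2) := by
      apply div_le_div_of_nonneg_right _ (by positivity)
      linarith
    have h6 : 2 * (ε / 2 * n * Real.log 2) ^ 2 / (n * L ^ 2) =
        Real.log 2 * ((ε ^ 2 * Real.log 2 / (2 * L ^ 2)) * n) := by
      field_simp
    have h7 : c₁ ≤ ε ^ 2 * Real.log 2 / (2 * L ^ 2) := min_le_right _ _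
    have h8 : Real.log 2 * (c₁ * n) ≤ Real.log 2 * ((ε ^ 2 * Real.log 2 / (2 * L ^ 2)) * n) := by
      apply mul_le_mul_of_nonneg_left _ hlog.le
      exact mul_le_mul_of_nonneg_right h7 hn0.le
    linarith
  have e3 : (2 : ℝ) ^ (1 - c₁ * n) + (2 : ℝ) ^ (-(c₁ * n)) ≤ (2 : ℝ) ^ (2 - c₁ * n) := by
    have g1 : (2 : ℝ) ^ (2 - c₁ * n) = 4 * (2 : ℝ) ^ (-(c₁ * n)) := by
      rw [sub_eq_add_neg, Real.rpow_add (by norm_num)]
      norm_num
    have g2 : (2 : ℝ) ^ (1 - c₁ * n) = 2 * (2 : ℝ) ^ (-(c₁ * n)) := by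
      rw [sub_eq_add_neg, Real.rpow_add (by norm_num)]
      norm_num
    have g3 : 0 < (2 : ℝ) ^ (-(c₁ * n)) := by positivity
    rw [g1, g2]
    linarith
  have h3 := pairs_ge C a2
  calc C.card * (2 : ℝ) ^ (H δ * n) * ((2 : ℝ) ^ (1 - ε / 4 * n) +
      Real.exp (-(2 * ((ε * n - bnd δ n - ε / 4 * n) * Real.log 2) ^ 2 / (n * L ^ 2))))
      ≤ C.card * (2 : ℝ) ^ (H δ * n) * (2 : ℝ) ^ (2 - c₁ * n) := by
        apply mul_le_mul_of_nonneg_left _ (by positivity)
        linarith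
    _ ≤ C.card * (2 : ℝ) ^ ((H δ - c₁ / 4) * n) * (2 : ℝ) ^ (-(c₁ / 2 * n)) := by
        rw [mul_assoc, mul_assoc, ← Real.rpow_add (by norm_num), ← Real.rpow_add (by norm_num)]
        apply mul_le_mul_of_nonneg_left _ (by positivity)
        apply Real.rpow_le_rpow_of_exponent_le (by norm_num)
        linarith
    _ ≤ (pairs δ C).card * (2 : ℝ) ^ (-(c₁ / 2 * n)) :=
        mul_le_mul_of_nonneg_right h3 (by positivity)
    _ = _ := by ring

theorem weak_of_strong {δ : ℝ} (h : ListStrong δ) : ListWeak δ := by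
  classical
  intro ε hε
  obtain ⟨c, hc, N, hN⟩ := h ε hε
  obtain ⟨M, hM⟩ := eventually_atTop.1 ((large c 1 hc).and (large ε 1 hε))
  refine ⟨max N M, fun n hn C hcode _ => ?_⟩
  have h2 := hN n ((le_max_left _ _).trans hn) C hcode
  obtain ⟨a1, a2⟩ := hM n ((le_max_right _ _).trans hn)
  have h3 : (((pairs δ C).filter fun p => (2 : ℝ) ^ (ε * n) ≤ near δ C p.2).card : ℝ) +
      (((pairs δ C).filter fun p => (near δ C p.2 : ℝ) < (2 : ℝ) ^ (ε * n)).card : ℝ) =
      (pairs δ C).card := by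
    have h4 := Finset.card_filter_add_card_filter_not (s := pairs δ C)
      (fun p => (2 : ℝ) ^ (ε * n) ≤ near δ C p.2)
    rw [← h4]
    push_cast
    congr 2
    congr 1
    ext p
    simp only [Finset.mem_filter, not_le]
  have h5 : ∀ s : ℝ, 1 ≤ s → (2 : ℝ) ^ (-s) ≤ 1 / 2 := by
    intro s hs
    calc (2 : ℝ) ^ (-s) ≤ (2 : ℝ) ^ (-1 : ℝ) :=
          Real.rpow_le_rpow_of_exponent_le (by norm_num) (by linarith)
      _ = 1 / 2 := by rw [Real.rpow_neg_one]; norm_num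
  have h6 := h5 _ a1
  have h7 := h5 _ a2
  have h8 : (0 : ℝ) ≤ (pairs δ C).card := Nat.cast_nonneg _
  nlinarith [mul_le_mul_of_nonneg_right h6 h8, mul_le_mul_of_nonneg_right h7 h8]

theorem sharp_of_weak {δ : ℝ} (h0 : 0 < δ) (h1 : δ < 1 / 2) (h : ListWeak δ) :
    R δ = 1 - H δ := by
  classical
  apply le_antisymm _ ((gv h0 h1).1.trans (gv h0 h1).2)
  apply le_of_forall_pos_le_add
  intro η hη
  obtain ⟨N, hN⟩ := h (η / 3) (by linarith)
  have hev : ∀ᶠ n : ℕ in atTop, Real.logb 2 (A n ⌈δ * n⌉₊) / n ≤ 1 - H δ + η := by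
    filter_upwards [ball_asym h0 h1 (η := η / 3) (by linarith), eventually_ge_atTop N,
      eventually_ge_atTop 1] with n a2 hn hn1
    have hn0 : (0 : ℝ) < n := by exact_mod_cast hn1
    obtain ⟨C, hcode, hcard⟩ := exists_A n ⌈δ * n⌉₊
    have h2 := hN n hn C hcode hcard
    have h3 := good_pairs (δ := δ) C (η / 3 * n)
    have h4 := pairs_ge C a2
    rw [hcard] at h4
    have hpos : (0 : ℝ) < A n ⌈δ * n⌉₊ := by exact_mod_cast A_pos _ _
    have h5 : (2 : ℝ) ^ (-(η / 3 * n)) * (A n ⌈δ * n⌉₊ * (2 : ℝ) ^ ((H δ - η / 3) * n)) ≤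
        2 ^ n * (2 : ℝ) ^ (η / 3 * n) :=
      (mul_le_mul_of_nonneg_left h4 (by positivity)).trans (h2.trans h3)
    have h6 : (A n ⌈δ * n⌉₊ : ℝ) ≤ (2 : ℝ) ^ ((1 - H δ + η) * n) := by
      have e1 : (2 : ℝ) ^ (-(η / 3 * n)) * (A n ⌈δ * n⌉₊ * (2 : ℝ) ^ ((H δ - η / 3) * n)) =
          A n ⌈δ * n⌉₊ * (2 : ℝ) ^ (-(η / 3 * n) + (H δ - η / 3) * n) := by
        rw [Real.rpow_add (by norm_num)]
        ring
      have e2 : 2 ^ n * (2 : ℝ) ^ (η / 3 * n) =
          (2 : ℝ) ^ ((1 - H δ + η) * n) * (2 : ℝ) ^ (-(η / 3 * n) + (H δ - η / 3) * n) := by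
        rw [← Real.rpow_natCast 2 n, ← Real.rpow_add (by norm_num), ← Real.rpow_add (by norm_num)]
        congr 1
        ring
      rw [e1, e2] at h5
      exact le_of_mul_le_mul_right h5 (by positivity)
    rw [div_le_iff₀ hn0, Real.logb_le_iff_le_rpow (by norm_num) hpos]
    exact h6
  exact limsup_le_of_le (bdd_ge (rateA δ)).isCoboundedUnder_flip hev

theorem sharp_iff {δ : ℝ} (h0 : 0 < δ) (h1 : δ < 1 / 2) :
    List.TFAE [R δ = 1 - H δ, E δ = 0, ListStrong δ, ListWeak δ] := by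
  have h2 := (two_sided h0 h1).1
  have h3 := (gv h0 h1).1.trans (gv h0 h1).2
  tfae_have 1 → 3 := strong_of_sharp h0 h1
  tfae_have 3 → 4 := weak_of_strong
  tfae_have 4 → 1 := sharp_of_weak h0 h1
  tfae_have 1 → 2 := by
    intro h
    rw [h, sub_self, phi_zero] at h2
    exact le_antisymm h2.2 h2.1
  tfae_have 2 → 1 := by
    intro h
    rw [h] at h2
    linarith [h2.1]
  tfae_finish

end Pool.Agent.Helper89K9.GV
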